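import Mathlib
import Pool.Agent.Helper206.Cover.Defs

/-!
# Symplectic manifolds, almost complex structures and connected rational curves
-/

open scoped Manifold ContDiff Topology
open Metric Set Bundle
open Pool.Agent.Helper206.Cover (R3 P1 cross BilinField EndoField formInChart endoInChart)

noncomputable section

namespace Pool.Agent.Helper206.Rat

section Structures

variable {E : Type*} [NormedAddCommGroup E] [NormedSpace ℝ E] {H : Type*} [TopologicalSpace H]
  (I : ModelWithCorners ℝ E H) (X : Type*) [TopologicalSpace X] [ChartedSpace H X]

/-- A symplectic form: a smooth, closed, alternating and nondegenerate bilinear form. -/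
structure SymplecticForm where
  /-- the form -/
  form : BilinField I X
  alt : ∀ x v, form x v v = 0
  smooth : ∀ x₀ : X, ContDiffOn ℝ ∞ (formInChart form x₀) (extChartAt I x₀).target
  closed : ∀ x₀ : X, ∀ y ∈ (extChartAt I x₀).target, ∀ a b c : E,
    fderiv ℝ (formInChart form x₀) y a b c + fderiv ℝ (formInChart form x₀) y b c a
      + fderiv ℝ (formInChart form x₀) y c a b = 0
  nondegenerate : ∀ x v, (∀ w, form x v w = 0) → v = 0

/-- An almost complex structure: a smooth field of endomorphisms with `J² = -1`. -/
structure AlmostComplex where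
  /-- the field of endomorphisms -/
  J : EndoField I X
  smooth : ∀ x₀ : X, ContDiffOn ℝ ∞ (endoInChart J x₀) (extChartAt I x₀).target
  sq : ∀ x v, J x (J x v) = -v

variable {I X}

/-- `J` is compatible with `Ω`: `Ω (J v, J w) = Ω (v, w)`, and `Ω (v, J v) > 0` for `v ≠ 0`. -/
def IsCompatible (Ω : SymplecticForm I X) (J : AlmostComplex I X) : Prop :=
  (∀ x v w, Ω.form x (J.J x v) (J.J x w) = Ω.form x v w) ∧
    ∀ x v, v ≠ 0 → 0 < Ω.form x v (J.J x v)

/-- `J₀` and `J₁` are homotopic through almost complex structures: there is a family `J_t`,
`t ∈ ℝ`, of almost complex structures, smooth in `(t, x)`, which joins them. -/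
def AreHomotopic (J₀ J₁ : AlmostComplex I X) : Prop :=
  ∃ J : ℝ → AlmostComplex I X, J 0 = J₀ ∧ J 1 = J₁ ∧
    ∀ x₀ : X, ContDiffOn ℝ ∞ (fun p : ℝ × E => endoInChart (J p.1).J x₀ p.2)
      (univ ×ˢ (extChartAt I x₀).target)

end Structures

section Curves

variable
  {E : Type*} [NormedAddCommGroup E] [NormedSpace ℝ E] {H : Type*} [TopologicalSpace H]
  {I : ModelWithCorners ℝ E H} {X : Type*} [TopologicalSpace X] [ChartedSpace H X]
  {E' : Type*} [NormedAddCommGroup E'] [NormedSpace ℝ E'] {H' : Type*} [TopologicalSpace H']
  {I' : ModelWithCorners ℝ E' H'} {S : Type*} [TopologicalSpace S] [ChartedSpace H' S]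

/-- The map `u` from `S`, with complex structure `j`, to `X` is `J`-holomorphic: it is smooth and
`du ∘ j = J ∘ du`. -/
def IsHolomorphic (j : EndoField I' S) (J : AlmostComplex I X) (u : S → X) : Prop :=
  ContMDiff I' I ∞ u ∧
    ∀ (z : S) (w : TangentSpace I' z), mfderiv I' I u z (j z w) = J.J (u z) (mfderiv I' I u z w)

/-- A non-constant `J`-holomorphic map to `X` from a connected nodal curve of genus `0`. The curve
has the components `S_a`, `a : Fin n`, all equal to the sphere `S` with complex structure `j`, and
one node for each edge `{a, b}` of a tree with vertices `a : Fin n`: there the point `node a b` of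
`S_a` is identified with the point `node b a` of `S_b`. The nodes on a component are distinct. -/
structure RationalCurve (j : EndoField I' S) (J : AlmostComplex I X) where
  /-- the number of components -/
  n : ℕ
  /-- the dual graph of the curve -/
  graph : SimpleGraph (Fin n)
  isTree : graph.IsTree
  /-- the point of the component `S_a` at which it meets the component `S_b` -/
  node : Fin n → Fin n → S
  node_ne : ∀ a b c, graph.Adj a b → graph.Adj a c → b ≠ c → node a b ≠ node a c
  /-- the map on the component `S_a` -/
  u : Fin n → S → X
  holomorphic : ∀ a, IsHolomorphic j J (u a)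
  node_eq : ∀ a b, graph.Adj a b → u a (node a b) = u b (node b a)
  nonconstant : ∃ a z w, u a z ≠ u a w

/-- The image in `X` of a rational curve. -/
def RationalCurve.image {j : EndoField I' S} {J : AlmostComplex I X} (C : RationalCurve j J) :
    Set X :=
  ⋃ a, range (C.u a)

/-- `(X, Ω)` is uniruled: for some `Ω`-compatible `J`, every point of `X` lies on a connected
rational `J`-holomorphic curve. -/
def IsUniruled (j : EndoField I' S) (Ω : SymplecticForm I X) : Prop :=
  ∃ J : AlmostComplex I X, IsCompatible Ω J ∧ ∀ x : X, ∃ C : RationalCurve j J, x ∈ C.image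

/-- `(X, Ω)` is rationally connected: for some `Ω`-compatible `J`, any two points of `X` lie on
a common connected rational `J`-holomorphic curve. -/
def IsRationallyConnected (j : EndoField I' S) (Ω : SymplecticForm I X) : Prop :=
  ∃ J : AlmostComplex I X, IsCompatible Ω J ∧
    ∀ x y : X, ∃ C : RationalCurve j J, x ∈ C.image ∧ y ∈ C.image

end Curves

end Pool.Agent.Helper206.Rat
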