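import Mathlib
import Pool.Agent.Helper206.Cover.Geometry
import Pool.Agent.Helper206.Rat.Defs

/-!
# The almost complex structures on `P¹ × P¹`
-/

open scoped Manifold ContDiff Topology
open Metric Set Bundle
open Pool.Agent.Helper206.Cover

noncomputable section

namespace Pool.Agent.Helper206.Rat

/-- the four-manifold -/
abbrev X4 : Type := P1 × P1
/-- its model with corners -/
abbrev I4 : ModelWithCorners ℝ (E2 × E2) (ModelProd E2 E2) := (𝓡 2).prod (𝓡 2)
/-- its model vector space -/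
abbrev E4 : Type := E2 × E2
/-- the vector space containing the tangent spaces -/
abbrev W6 : Type := R3 × R3

/-- minus the product of the colatitude vector field and the radius of the parallel -/
def Nv (z : R3) : R3 := !₂[-(z 0 * z 2), -(z 1 * z 2), 1 - z 2 ^ 2]
/-- the rotation vector field -/
def Tv (z : R3) : R3 := !₂[-z 1, z 0, 0]

/-- the exchange of the factors -/
def MW (z z' : R3) (v : W6) : W6 :=
  ((-(v.2 2)) • Nv z + (z' 0 * v.2 1 - z' 1 * v.2 0) • Tv z,
    (v.1 2) • Nv z' - (z 0 * v.1 1 - z 1 * v.1 0) • Tv z')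

theorem MW_add (z z' : R3) (v w : W6) : MW z z' (v + w) = MW z z' v + MW z z' w := by
  refine Prod.ext ?_ ?_
  · ext i; fin_cases i <;> simp [MW, Nv, Tv] <;> ring
  · ext i; fin_cases i <;> simp [MW, Nv, Tv] <;> ring

theorem MW_smul (z z' : R3) (c : ℝ) (v : W6) : MW z z' (c • v) = c • MW z z' v := by
  refine Prod.ext ?_ ?_
  · ext i; fin_cases i <;> simp [MW, Nv, Tv] <;> ring
  · ext i; fin_cases i <;> simp [MW, Nv, Tv] <;> ring

/-- the exchange of the factors as a continuous linear map -/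
def ML (z z' : R3) : W6 →L[ℝ] W6 :=
  LinearMap.toContinuousLinearMap
    { toFun := MW z z'
      map_add' := MW_add z z'
      map_smul' := MW_smul z z' }

theorem ML_apply (z z' : R3) (v : W6) : ML z z' v = MW z z' v := rfl

/-- the combination `c (j ⊕ j) + s M` -/
def Jamb (c s : ℝ) (z z' : R3) : W6 →L[ℝ] W6 :=
  c • ((crossL z).prodMap (crossL z')) + s • ML z z'

theorem Jamb_apply (c s : ℝ) (z z' : R3) (v : W6) :
    Jamb c s z z' v = c • (cross z v.1, cross z' v.2) + s • MW z z' v := rfl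

/-- a bump function, equal to `1` on `[-1/2, 1/2]` and to `0` outside `(-3/4, 3/4)` -/
def χ : ContDiffBump (0 : ℝ) := ⟨1 / 2, 3 / 4, by norm_num, by norm_num⟩

/-- the angle -/
def ang (t a b : ℝ) : ℝ := t * (Real.pi / 2 * (χ a * χ b))
/-- the coefficient `c` -/
def coefC (t a b : ℝ) : ℝ := Real.cos (ang t a b)
/-- the coefficient `s` -/
def coefS (t a b : ℝ) : ℝ := Real.sin (ang t a b) / Real.sqrt ((1 - a ^ 2) * (1 - b ^ 2))

/-- the ambient expression of the almost complex structure -/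
def Jt (t : ℝ) (z z' : R3) : W6 →L[ℝ] W6 := Jamb (coefC t (z 2) (z' 2)) (coefS t (z 2) (z' 2)) z z'

/-- the symplectic form as an ambient form -/
def formW6 (z z' : R3) : W6 →L[ℝ] W6 →L[ℝ] ℝ :=
  dotL.bilinearComp ((crossL z).comp (ContinuousLinearMap.fst ℝ R3 R3))
      (ContinuousLinearMap.fst ℝ R3 R3)
    + dotL.bilinearComp ((crossL z').comp (ContinuousLinearMap.snd ℝ R3 R3))
      (ContinuousLinearMap.snd ℝ R3 R3)

theorem formW6_apply (z z' : R3) (v w : W6) :
    formW6 z z' v w = inner ℝ (cross z v.1) w.1 + inner ℝ (cross z' v.2) w.2 := rfl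

/-- the inclusion of the tangent space in `W6` -/
def inc4 (x : X4) : E4 →L[ℝ] W6 :=
  ((dInc x.1 : E2 →L[ℝ] R3).prodMap (dInc x.2 : E2 →L[ℝ] R3))

/-- the projection of `W6` to the tangent space -/
def proj4 (x : X4) : W6 →L[ℝ] E4 :=
  ((tanProj x.1 : R3 →L[ℝ] E2).prodMap (tanProj x.2 : R3 →L[ℝ] E2))

/-- the almost complex structures -/
def J4 (t : ℝ) : EndoField I4 X4 := fun x =>
  ((proj4 x).comp ((Jt t x.1 x.2).comp (inc4 x)) : E4 →L[ℝ] E4)

/-- the symplectic form -/
def form4 : BilinField I4 X4 := fun x =>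
  ((formW6 x.1 x.2).bilinearComp (inc4 x) (inc4 x) : E4 →L[ℝ] E4 →L[ℝ] ℝ)

end Pool.Agent.Helper206.Rat
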