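import Mathlib
import Pool.Agent.Helper206.Rat.Example

/-!
# Algebraic identities
-/

open scoped Manifold ContDiff Topology
open Metric Set Bundle
open Pool.Agent.Helper206.Cover

noncomputable section

namespace Pool.Agent.Helper206.Rat

theorem JJ_K1 (z : R3) (hz : z 0 * z 0 + z 1 * z 1 + z 2 * z 2 = 1) :
    cross z (Nv z) = -Tv z ∧ cross z (Tv z) = Nv z := by
  constructor
  · ext i
    fin_cases i <;> simp [cross, Nv, Tv]
    · ring
    · ring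
    · ring
  · ext i
    fin_cases i <;> simp [cross, Nv, Tv]
    · ring
    · ring
    · linear_combination hz

theorem JJ_K2 (z w : R3) : (cross z w) 2 = z 0 * w 1 - z 1 * w 0 := by
  simp [cross]

theorem JJ_K3 (z w : R3) (hz : z 0 * z 0 + z 1 * z 1 + z 2 * z 2 = 1)
    (hw : z 0 * w 0 + z 1 * w 1 + z 2 * w 2 = 0) :
    z 0 * (cross z w) 1 - z 1 * (cross z w) 0 = -(w 2) := by
  simp [cross]
  linear_combination (z 2) * hw - (w 2) * hz

theorem JJ_K4 (z w : R3) (hz : z 0 * z 0 + z 1 * z 1 + z 2 * z 2 = 1)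
    (hw : z 0 * w 0 + z 1 * w 1 + z 2 * w 2 = 0) (i : Fin 3) :
    (w 2) * (Nv z) i + (z 0 * w 1 - z 1 * w 0) * (Tv z) i = (1 - z 2 ^ 2) * w i := by
  fin_cases i <;> simp [Nv, Tv]
  · linear_combination (-z 0) * hw + (w 0) * hz
  · linear_combination (-z 1) * hw + (w 1) * hz
  · ring

theorem JJ_N2 (z : R3) : (Nv z) 2 = 1 - z 2 ^ 2 := by simp [Nv]

theorem JJ_T2 (z : R3) : (Tv z) 2 = 0 := by simp [Tv]

theorem JJ_Nb (z : R3) : z 0 * (Nv z) 1 - z 1 * (Nv z) 0 = 0 := by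
  simp [Nv]
  ring

theorem JJ_Tb (z : R3) (hz : z 0 * z 0 + z 1 * z 1 + z 2 * z 2 = 1) :
    z 0 * (Tv z) 1 - z 1 * (Tv z) 0 = 1 - z 2 ^ 2 := by
  simp [Tv]
  linear_combination hz

theorem JJ_crx (z w : R3) (hz : inner ℝ z z = (1 : ℝ)) (hw : inner ℝ z w = (0 : ℝ)) :
    cross z (cross z w) = -w := by
  rw [crx_crx z hz, hw, zero_smul, zero_sub]

theorem Jamb_orth (c s : ℝ) (z z' : R3) (hz : inner ℝ z z = (1 : ℝ)) (hz' : inner ℝ z' z' = (1 : ℝ))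
    (v : W6) : inner ℝ z (Jamb c s z z' v).1 = (0 : ℝ) ∧ inner ℝ z' (Jamb c s z z' v).2 = (0 : ℝ) := by
  rw [inner_r3] at hz hz'
  rw [Jamb_apply, inner_r3, inner_r3]
  constructor
  · simp [MW, cross, Nv, Tv]
    linear_combination (s * v.2 2 * z 2) * hz
  · simp [MW, cross, Nv, Tv]
    linear_combination (-s * v.1 2 * z' 2) * hz'

theorem Jamb_Jamb (c s : ℝ) (z z' : R3) (hz : inner ℝ z z = (1 : ℝ))
    (hz' : inner ℝ z' z' = (1 : ℝ)) (hcs : c ^ 2 + s ^ 2 * ((1 - z 2 ^ 2) * (1 - z' 2 ^ 2)) = 1)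
    (v : W6) (hv : inner ℝ z v.1 = (0 : ℝ)) (hv' : inner ℝ z' v.2 = (0 : ℝ)) :
    Jamb c s z z' (Jamb c s z z' v) = -v := by
  obtain ⟨p, q⟩ := v
  simp only at hv hv'
  have hzz := hz
  have hzz' := hz'
  have hvv := hv
  have hvv' := hv'
  rw [inner_r3] at hzz hzz' hvv hvv'
  obtain ⟨k1, k2⟩ := JJ_K1 z hzz
  obtain ⟨k1', k2'⟩ := JJ_K1 z' hzz'
  set P : R3 := c • cross z p + s • ((-(q 2)) • Nv z + (z' 0 * q 1 - z' 1 * q 0) • Tv z) with hP
  set Q : R3 := c • cross z' q + s • ((p 2) • Nv z' - (z 0 * p 1 - z 1 * p 0) • Tv z') with hQ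
  have hJ : Jamb c s z z' (p, q) = (P, Q) := rfl
  rw [hJ, Jamb_apply]
  have aQ : Q 2 = c * (z' 0 * q 1 - z' 1 * q 0) + s * (p 2 * (1 - z' 2 ^ 2)) := by
    rw [hQ]
    simp only [PiLp.add_apply, PiLp.sub_apply, PiLp.smul_apply, smul_eq_mul, JJ_K2, JJ_N2, JJ_T2]
    ring
  have aP : P 2 = c * (z 0 * p 1 - z 1 * p 0) + s * (-(q 2) * (1 - z 2 ^ 2)) := by
    rw [hP]
    simp only [PiLp.add_apply, PiLp.sub_apply, PiLp.smul_apply, smul_eq_mul, JJ_K2, JJ_N2, JJ_T2]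
    ring
  have bQ : z' 0 * Q 1 - z' 1 * Q 0 = c * (-(q 2)) - s * ((z 0 * p 1 - z 1 * p 0) *
      (1 - z' 2 ^ 2)) := by
    rw [hQ]
    simp only [PiLp.add_apply, PiLp.sub_apply, PiLp.smul_apply, smul_eq_mul]
    linear_combination c * JJ_K3 z' q hzz' hvv' + s * p 2 * JJ_Nb z' -
      s * (z 0 * p 1 - z 1 * p 0) * JJ_Tb z' hzz'
  have bP : z 0 * P 1 - z 1 * P 0 = c * (-(p 2)) + s * ((z' 0 * q 1 - z' 1 * q 0) *
      (1 - z 2 ^ 2)) := by
    rw [hP]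
    simp only [PiLp.add_apply, PiLp.sub_apply, PiLp.smul_apply, smul_eq_mul]
    linear_combination c * JJ_K3 z p hzz hvv - s * q 2 * JJ_Nb z +
      s * (z' 0 * q 1 - z' 1 * q 0) * JJ_Tb z hzz
  have cP : cross z P = -(c • p) + s • ((q 2) • Tv z + (z' 0 * q 1 - z' 1 * q 0) • Nv z) := by
    rw [hP, crx_add, crx_smul, JJ_crx z p hz hv, crx_smul, crx_add, crx_smul, crx_smul, k1, k2]
    module
  have cQ : cross z' Q = -(c • q) + s • (-(p 2) • Tv z' - (z 0 * p 1 - z 1 * p 0) • Nv z') := by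
    rw [hQ, crx_add, crx_smul, JJ_crx z' q hz' hv', crx_smul, crx_sub, crx_smul, crx_smul, k1', k2']
    module
  have m1 : (MW z z' (P, Q)).1 = (-(Q 2)) • Nv z + (z' 0 * Q 1 - z' 1 * Q 0) • Tv z := rfl
  have m2 : (MW z z' (P, Q)).2 = (P 2) • Nv z' - (z 0 * P 1 - z 1 * P 0) • Tv z' := rfl
  apply Prod.ext
  · show c • cross z P + s • (MW z z' (P, Q)).1 = -p
    rw [m1, cP, aQ, bQ]
    ext i
    have k4 := JJ_K4 z p hzz hvv i
    simp only [PiLp.add_apply, PiLp.sub_apply, PiLp.smul_apply, PiLp.neg_apply, smul_eq_mul]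
    linear_combination (-s ^ 2 * (1 - z' 2 ^ 2)) * k4 - p i * hcs
  · show c • cross z' Q + s • (MW z z' (P, Q)).2 = -q
    rw [m2, cQ, aP, bP]
    ext i
    have k4 := JJ_K4 z' q hzz' hvv' i
    simp only [PiLp.add_apply, PiLp.sub_apply, PiLp.smul_apply, PiLp.neg_apply, smul_eq_mul]
    linear_combination (-s ^ 2 * (1 - z 2 ^ 2)) * k4 - q i * hcs

theorem sq_le_one_of_unit (z : R3) (hz : inner ℝ z z = (1 : ℝ)) : z 2 ^ 2 ≤ 1 := by
  rw [inner_r3] at hz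
  nlinarith [sq_nonneg (z 0), sq_nonneg (z 1)]

theorem chi_zero_of_sq (a : ℝ) (ha : 1 ≤ |a|) : χ a = 0 := by
  apply χ.zero_of_le_dist
  rw [Real.dist_eq, sub_zero]
  show (3 / 4 : ℝ) ≤ |a|
  linarith

theorem chi_one_of_le (a : ℝ) (ha : |a| ≤ 1 / 2) : χ a = 1 := by
  apply χ.one_of_mem_closedBall
  rw [mem_closedBall, Real.dist_eq, sub_zero]
  exact ha

theorem coef_sq (t a b : ℝ) (ha : a ^ 2 ≤ 1) (hb : b ^ 2 ≤ 1) :
    coefC t a b ^ 2 + coefS t a b ^ 2 * ((1 - a ^ 2) * (1 - b ^ 2)) = 1 := by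
  unfold coefC coefS
  have h0 : 0 ≤ (1 - a ^ 2) * (1 - b ^ 2) := mul_nonneg (by linarith) (by linarith)
  rcases h0.lt_or_eq with h | h
  · rw [div_pow, Real.sq_sqrt h0, div_mul_cancel₀ _ h.ne']
    exact Real.cos_sq_add_sin_sq _
  · have hab : |a| = 1 ∨ |b| = 1 := by
      rcases mul_eq_zero.1 h.symm with h1 | h1
      · left
        have : a ^ 2 = 1 := by linarith
        rw [← Real.sqrt_sq_eq_abs, this, Real.sqrt_one]
      · right
        have : b ^ 2 = 1 := by linarith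
        rw [← Real.sqrt_sq_eq_abs, this, Real.sqrt_one]
    have hang : ang t a b = 0 := by
      unfold ang
      rcases hab with h1 | h1
      · rw [chi_zero_of_sq a h1.ge]; ring
      · rw [chi_zero_of_sq b h1.ge]; ring
    rw [hang, Real.cos_zero, Real.sin_zero]
    simp

theorem coef_zero (a b : ℝ) : coefC 0 a b = 1 ∧ coefS 0 a b = 0 := by
  unfold coefC coefS ang
  simp

theorem coef_mid (a b : ℝ) (ha : |a| ≤ 1 / 2) (hb : |b| ≤ 1 / 2) :
    coefC 1 a b = 0 ∧ 0 < coefS 1 a b := by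
  unfold coefC coefS ang
  rw [chi_one_of_le a ha, chi_one_of_le b hb]
  have e : (1 : ℝ) * (Real.pi / 2 * (1 * 1)) = Real.pi / 2 := by ring
  rw [e, Real.cos_pi_div_two, Real.sin_pi_div_two]
  refine ⟨rfl, ?_⟩
  have ha2 : a ^ 2 ≤ 1 / 4 := by
    rw [← sq_abs]
    nlinarith [abs_nonneg a]
  have hb2 : b ^ 2 ≤ 1 / 4 := by
    rw [← sq_abs]
    nlinarith [abs_nonneg b]
  have : 0 < (1 - a ^ 2) * (1 - b ^ 2) := mul_pos (by linarith) (by linarith)
  positivity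

theorem aux105_ang : ContDiff ℝ ∞ (fun p : ℝ × ℝ × ℝ => ang p.1 p.2.1 p.2.2) := by
  unfold ang
  have h1 : ContDiff ℝ ∞ (fun p : ℝ × ℝ × ℝ => χ p.2.1) :=
    χ.contDiff.comp (contDiff_fst.comp contDiff_snd)
  have h2 : ContDiff ℝ ∞ (fun p : ℝ × ℝ × ℝ => χ p.2.2) :=
    χ.contDiff.comp (contDiff_snd.comp contDiff_snd)
  exact contDiff_fst.mul (contDiff_const.mul (h1.mul h2))

theorem aux105_chi (a : ℝ) (ha : 3 / 4 < |a|) : χ a = 0 := by
  apply χ.zero_of_le_dist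
  rw [Real.dist_eq, sub_zero]
  exact ha.le

theorem contDiff_coefC : ContDiff ℝ ∞ (fun p : ℝ × ℝ × ℝ => coefC p.1 p.2.1 p.2.2) := by
  unfold coefC
  exact aux105_ang.cos

theorem contDiff_coefS : ContDiff ℝ ∞ (fun p : ℝ × ℝ × ℝ => coefS p.1 p.2.1 p.2.2) := by
  rw [contDiff_iff_contDiffAt]
  intro p
  by_cases ha : 1 ≤ |p.2.1|
  · have h1 : ∀ᶠ q : ℝ × ℝ × ℝ in nhds p, 3 / 4 < |q.2.1| := by
      apply (isOpen_lt continuous_const (by fun_prop)).mem_nhds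
      show 3 / 4 < |p.2.1|
      linarith
    refine (contDiffAt_const (c := (0 : ℝ))).congr_of_eventuallyEq ?_
    filter_upwards [h1] with q hq
    simp [coefS, ang, aux105_chi _ hq]
  by_cases hb : 1 ≤ |p.2.2|
  · have h1 : ∀ᶠ q : ℝ × ℝ × ℝ in nhds p, 3 / 4 < |q.2.2| := by
      apply (isOpen_lt continuous_const (by fun_prop)).mem_nhds
      show 3 / 4 < |p.2.2|
      linarith
    refine (contDiffAt_const (c := (0 : ℝ))).congr_of_eventuallyEq ?_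
    filter_upwards [h1] with q hq
    simp [coefS, ang, aux105_chi _ hq]
  push Not at ha hb
  have ha' : 0 < 1 - p.2.1 ^ 2 := by
    rw [← sq_abs]
    have := pow_lt_one₀ (abs_nonneg p.2.1) ha two_ne_zero
    linarith
  have hb' : 0 < 1 - p.2.2 ^ 2 := by
    rw [← sq_abs]
    have := pow_lt_one₀ (abs_nonneg p.2.2) hb two_ne_zero
    linarith
  have hpos : 0 < (1 - p.2.1 ^ 2) * (1 - p.2.2 ^ 2) := mul_pos ha' hb'
  unfold coefS
  have hc1 : ContDiff ℝ ∞ (fun q : ℝ × ℝ × ℝ => (1 - q.2.1 ^ 2) * (1 - q.2.2 ^ 2)) := by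
    fun_prop
  refine ContDiffAt.div aux105_ang.sin.contDiffAt ?_ ?_
  · exact hc1.contDiffAt.sqrt hpos.ne'
  · exact (Real.sqrt_pos.mpr hpos).ne'

theorem Jt_zero_apply (z z' : R3) (v : W6) : Jt 0 z z' v = (cross z v.1, cross z' v.2) := by
  unfold Jt
  rw [(coef_zero _ _).1, (coef_zero _ _).2, Jamb_apply, one_smul, zero_smul, add_zero]

theorem crx_crx_neg (z x : R3) (hz : inner ℝ z z = (1 : ℝ)) (hx : inner ℝ z x = (0 : ℝ)) :
    cross z (cross z x) = -x := by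
  rw [crx_crx z hz, hx, zero_smul, zero_sub]

theorem formW6_compat (z z' : R3) (hz : inner ℝ z z = (1 : ℝ)) (hz' : inner ℝ z' z' = (1 : ℝ))
    (v w : W6) (hv : inner ℝ z v.1 = (0 : ℝ)) (hv' : inner ℝ z' v.2 = (0 : ℝ))
    (hw : inner ℝ z w.1 = (0 : ℝ)) (hw' : inner ℝ z' w.2 = (0 : ℝ)) :
    formW6 z z' (Jt 0 z z' v) (Jt 0 z z' w) = formW6 z z' v w := by
  rw [Jt_zero_apply, Jt_zero_apply, formW6_apply, formW6_apply]
  show (inner ℝ (cross z (cross z v.1)) (cross z w.1) : ℝ)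
    + inner ℝ (cross z' (cross z' v.2)) (cross z' w.2) = _
  rw [crx_crx_neg z v.1 hz hv, crx_crx_neg z' v.2 hz' hv', inner_neg_left, inner_neg_left,
    inner_crx_left z v.1, inner_crx_left z' v.2]

theorem formW6_pos (z z' : R3) (hz : inner ℝ z z = (1 : ℝ)) (hz' : inner ℝ z' z' = (1 : ℝ))
    (v : W6) (hv : inner ℝ z v.1 = (0 : ℝ)) (hv' : inner ℝ z' v.2 = (0 : ℝ)) (h0 : v ≠ 0) :
    0 < formW6 z z' v (Jt 0 z z' v) := by
  rw [Jt_zero_apply, formW6_apply]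
  show 0 < (inner ℝ (cross z v.1) (cross z v.1) : ℝ) + inner ℝ (cross z' v.2) (cross z' v.2)
  rw [inner_crx_crx z hz, inner_crx_crx z' hz', hv, hv', mul_zero, sub_zero, sub_zero]
  have h1 : (0 : ℝ) ≤ inner ℝ v.1 v.1 := real_inner_self_nonneg
  have h2 : (0 : ℝ) ≤ inner ℝ v.2 v.2 := real_inner_self_nonneg
  by_cases hv1 : v.1 = 0
  · have hv2 : v.2 ≠ 0 := fun h => h0 (Prod.ext hv1 h)
    have h3 : (0 : ℝ) < inner ℝ v.2 v.2 := real_inner_self_pos.2 hv2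
    linarith
  · have h3 : (0 : ℝ) < inner ℝ v.1 v.1 := real_inner_self_pos.2 hv1
    linarith

theorem formW6_self (z z' : R3) (v : W6) : formW6 z z' v v = 0 := by
  rw [formW6_apply]
  have key : ∀ a x : R3, (inner ℝ (cross a x) x : ℝ) = 0 := by
    intro a x
    have h1 := inner_crx_left a x x
    rw [real_inner_comm (cross a x) x] at h1
    linarith
  rw [key, key, add_zero]

end Pool.Agent.Helper206.Rat
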