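import Mathlib
import Pool.Agent.Helper206.Rat.Algebra

/-!
# Calculus lemmas
-/

open scoped Manifold ContDiff Topology
open Metric Set Bundle
open Pool.Agent.Helper206.Cover

noncomputable section

namespace Pool.Agent.Helper206.Rat

/-- coordinate expression of the form -/
def coordForm4 (Z Z' : E2 → R3) (y : E4) : E4 →L[ℝ] E4 →L[ℝ] ℝ :=
  (formW6 (Z y.1) (Z' y.2)).bilinearComp ((fderiv ℝ Z y.1).prodMap (fderiv ℝ Z' y.2))
    ((fderiv ℝ Z y.1).prodMap (fderiv ℝ Z' y.2))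

/-- coordinate expression of the almost complex structures -/
def coordEndo4 (Z Z' : E2 → R3) (P P' : E2 → R3 →L[ℝ] E2) (t : ℝ) (y : E4) : E4 →L[ℝ] E4 :=
  ((P y.1).prodMap (P' y.2)).comp
    ((Jt t (Z y.1) (Z' y.2)).comp ((fderiv ℝ Z y.1).prodMap (fderiv ℝ Z' y.2)))

/-- the coordinate form on one factor -/
def Gz (Z : E2 → R3) (y : E2) : E2 →L[ℝ] E2 →L[ℝ] ℝ :=
  dotL.bilinearComp ((crossL (Z y)).comp (fderiv ℝ Z y)) (fderiv ℝ Z y)

theorem Gz_apply (Z : E2 → R3) (y v w : E2) :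
    Gz Z y v w = inner ℝ (cross (Z y) (fderiv ℝ Z y v)) (fderiv ℝ Z y w) := rfl

theorem contDiff_Gz (Z : E2 → R3) (hZ : ContDiff ℝ ∞ Z) : ContDiff ℝ ∞ (Gz Z) := by
  rw [contDiff_clm_apply_iff]
  intro v
  rw [contDiff_clm_apply_iff]
  intro w
  have hd : ContDiff ℝ ∞ (fderiv ℝ Z) := hZ.fderiv_right (m := ∞) (by norm_cast)
  have h1 : ContDiff ℝ ∞ (fun y => fderiv ℝ Z y v) := hd.clm_apply contDiff_const
  have h2 : ContDiff ℝ ∞ (fun y => fderiv ℝ Z y w) := hd.clm_apply contDiff_const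
  exact (contDiff_cross hZ h1).inner ℝ h2

theorem Gz_self (Z : E2 → R3) (y v : E2) : Gz Z y v v = 0 := by
  rw [Gz_apply]
  have h := inner_crx_left (Z y) (fderiv ℝ Z y v) (fderiv ℝ Z y v)
  rw [real_inner_comm (cross (Z y) (fderiv ℝ Z y v)) (fderiv ℝ Z y v)] at h
  linarith

theorem coordForm4_eq (Z Z' : E2 → R3) (y v w : E4) :
    coordForm4 Z Z' y v w = Gz Z y.1 v.1 w.1 + Gz Z' y.2 v.2 w.2 := rfl

theorem hasFDerivAt_apply2 {E F : Type*} [NormedAddCommGroup E] [NormedSpace ℝ E]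
    [NormedAddCommGroup F] [NormedSpace ℝ F] (G : E → F →L[ℝ] F →L[ℝ] ℝ)
    (G' : E →L[ℝ] F →L[ℝ] F →L[ℝ] ℝ) (y : E)
    (h : HasFDerivAt G G' y) (b c : F) :
    HasFDerivAt (fun z => G z b c)
      ((ContinuousLinearMap.apply ℝ ℝ c).comp
        ((ContinuousLinearMap.apply ℝ (F →L[ℝ] ℝ) b).comp G')) y := by
  have e1 : HasFDerivAt (fun z => G z b) ((ContinuousLinearMap.apply ℝ (F →L[ℝ] ℝ) b).comp G') y :=
    HasFDerivAt.comp (g := fun L : F →L[ℝ] F →L[ℝ] ℝ => L b) y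
      (ContinuousLinearMap.apply ℝ (F →L[ℝ] ℝ) b).hasFDerivAt h
  exact HasFDerivAt.comp (g := fun L : F →L[ℝ] ℝ => L c) y
      (ContinuousLinearMap.apply ℝ ℝ c).hasFDerivAt e1

/-- an alternating two form on the plane is closed -/
theorem closed_two (G : E2 → E2 →L[ℝ] E2 →L[ℝ] ℝ) (y : E2) (hG : DifferentiableAt ℝ G y)
    (hs : ∀ y v, G y v v = 0) (a b c : E2) :
    fderiv ℝ G y a b c + fderiv ℝ G y b c a + fderiv ℝ G y c a b = 0 := by
  have hz : ∀ a v : E2, fderiv ℝ G y a v v = 0 := by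
    intro a v
    have h1 : HasFDerivAt (fun z => G z v v)
        ((ContinuousLinearMap.apply ℝ ℝ v).comp
          ((ContinuousLinearMap.apply ℝ (E2 →L[ℝ] ℝ) v).comp (fderiv ℝ G y))) y :=
      hasFDerivAt_apply2 G (fderiv ℝ G y) y hG.hasFDerivAt v v
    have h2 : (fun z => G z v v) = fun _ => (0 : ℝ) := funext fun z => hs z v
    rw [h2] at h1
    have h3 := h1.unique (hasFDerivAt_const (0 : ℝ) y)
    have h4 := congrArg (fun L : E2 →L[ℝ] ℝ => L a) h3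
    exact h4
  have hanti : ∀ a v w : E2, fderiv ℝ G y a v w = - fderiv ℝ G y a w v := by
    intro a v w
    have h := hz a (v + w)
    simp only [map_add, ContinuousLinearMap.add_apply] at h
    rw [hz a v, hz a w] at h
    linarith
  have hbas : ∀ a : E2, a = a 0 • EuclideanSpace.single 0 (1 : ℝ) +
      a 1 • EuclideanSpace.single 1 (1 : ℝ) := by
    intro a
    ext i
    fin_cases i <;> simp
  have hexp : ∀ a v w : E2, fderiv ℝ G y a v w =
      (v 0 * w 1 - v 1 * w 0) * (a 0 * fderiv ℝ G y (EuclideanSpace.single 0 (1 : ℝ))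
        (EuclideanSpace.single 0 (1 : ℝ)) (EuclideanSpace.single 1 (1 : ℝ)) +
      a 1 * fderiv ℝ G y (EuclideanSpace.single 1 (1 : ℝ))
        (EuclideanSpace.single 0 (1 : ℝ)) (EuclideanSpace.single 1 (1 : ℝ))) := by
    intro a v w
    conv_lhs => rw [hbas a, hbas v, hbas w]
    simp only [map_add, map_smul, ContinuousLinearMap.add_apply, ContinuousLinearMap.smul_apply,
      smul_eq_mul]
    rw [hz, hz, hz, hz, hanti _ (EuclideanSpace.single 1 (1 : ℝ)) (EuclideanSpace.single 0 (1 : ℝ)),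
      hanti _ (EuclideanSpace.single 1 (1 : ℝ)) (EuclideanSpace.single 0 (1 : ℝ))]
    ring
  rw [hexp a, hexp b, hexp c]
  ring

theorem contDiff_coordForm4 (Z Z' : E2 → R3) (hZ : ContDiff ℝ ∞ Z) (hZ' : ContDiff ℝ ∞ Z') :
    ContDiff ℝ ∞ (coordForm4 Z Z') := by
  rw [contDiff_clm_apply_iff]
  intro v
  rw [contDiff_clm_apply_iff]
  intro w
  have h1 : ContDiff ℝ ∞ (fun y : E4 => Gz Z y.1 v.1 w.1) :=
    (((contDiff_Gz Z hZ).comp contDiff_fst).clm_apply contDiff_const).clm_apply contDiff_const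
  have h2 : ContDiff ℝ ∞ (fun y : E4 => Gz Z' y.2 v.2 w.2) :=
    (((contDiff_Gz Z' hZ').comp contDiff_snd).clm_apply contDiff_const).clm_apply contDiff_const
  exact h1.add h2

theorem fderiv_coordForm4 (Z Z' : E2 → R3) (hZ : ContDiff ℝ ∞ Z) (hZ' : ContDiff ℝ ∞ Z')
    (y a b c : E4) : fderiv ℝ (coordForm4 Z Z') y a b c =
      fderiv ℝ (Gz Z) y.1 a.1 b.1 c.1 + fderiv ℝ (Gz Z') y.2 a.2 b.2 c.2 := by
  have hc : DifferentiableAt ℝ (coordForm4 Z Z') y :=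
    (contDiff_coordForm4 Z Z' hZ hZ').differentiable (by simp) y
  have hg : DifferentiableAt ℝ (Gz Z) y.1 := (contDiff_Gz Z hZ).differentiable (by simp) y.1
  have hg' : DifferentiableAt ℝ (Gz Z') y.2 := (contDiff_Gz Z' hZ').differentiable (by simp) y.2
  have h1 : HasFDerivAt (fun z => coordForm4 Z Z' z b c)
      ((ContinuousLinearMap.apply ℝ ℝ c).comp
        ((ContinuousLinearMap.apply ℝ (E4 →L[ℝ] ℝ) b).comp (fderiv ℝ (coordForm4 Z Z') y))) y :=
    hasFDerivAt_apply2 (coordForm4 Z Z') (fderiv ℝ (coordForm4 Z Z') y) y hc.hasFDerivAt b c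
  have h2 : HasFDerivAt (fun z : E4 => Gz Z z.1 b.1 c.1)
      ((ContinuousLinearMap.apply ℝ ℝ c.1).comp
        ((ContinuousLinearMap.apply ℝ (E2 →L[ℝ] ℝ) b.1).comp
          ((fderiv ℝ (Gz Z) y.1).comp (ContinuousLinearMap.fst ℝ E2 E2)))) y :=
    hasFDerivAt_apply2 (fun z : E4 => Gz Z z.1)
      ((fderiv ℝ (Gz Z) y.1).comp (ContinuousLinearMap.fst ℝ E2 E2)) y
      (HasFDerivAt.comp (g := Gz Z) (f := fun z : E4 => z.1) y hg.hasFDerivAt
        (ContinuousLinearMap.fst ℝ E2 E2).hasFDerivAt) b.1 c.1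
  have h3 : HasFDerivAt (fun z : E4 => Gz Z' z.2 b.2 c.2)
      ((ContinuousLinearMap.apply ℝ ℝ c.2).comp
        ((ContinuousLinearMap.apply ℝ (E2 →L[ℝ] ℝ) b.2).comp
          ((fderiv ℝ (Gz Z') y.2).comp (ContinuousLinearMap.snd ℝ E2 E2)))) y :=
    hasFDerivAt_apply2 (fun z : E4 => Gz Z' z.2)
      ((fderiv ℝ (Gz Z') y.2).comp (ContinuousLinearMap.snd ℝ E2 E2)) y
      (HasFDerivAt.comp (g := Gz Z') (f := fun z : E4 => z.2) y hg'.hasFDerivAt
        (ContinuousLinearMap.snd ℝ E2 E2).hasFDerivAt) b.2 c.2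
  have h4 := h1.unique (h2.add h3)
  have h5 := congrArg (fun L : E4 →L[ℝ] ℝ => L a) h4
  exact h5

theorem closed_coordForm4 (Z Z' : E2 → R3) (hZ : ContDiff ℝ ∞ Z) (hZ' : ContDiff ℝ ∞ Z')
    (h1 : ∀ y, ‖Z y‖ = 1) (h1' : ∀ y, ‖Z' y‖ = 1) (y a b c : E4) :
    fderiv ℝ (coordForm4 Z Z') y a b c + fderiv ℝ (coordForm4 Z Z') y b c a
      + fderiv ℝ (coordForm4 Z Z') y c a b = 0 := by
  rw [fderiv_coordForm4 Z Z' hZ hZ', fderiv_coordForm4 Z Z' hZ hZ', fderiv_coordForm4 Z Z' hZ hZ']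
  have e1 := closed_two (Gz Z) y.1 ((contDiff_Gz Z hZ).differentiable (by simp) y.1)
    (Gz_self Z) a.1 b.1 c.1
  have e2 := closed_two (Gz Z') y.2 ((contDiff_Gz Z' hZ').differentiable (by simp) y.2)
    (Gz_self Z') a.2 b.2 c.2
  linarith

theorem j5530_coord {F : Type*} [NormedAddCommGroup F] [NormedSpace ℝ F] {f : F → R3}
    (hf : ContDiff ℝ ∞ f) (i : Fin 3) : ContDiff ℝ ∞ (fun x => f x i) :=
  contDiff_euclidean.1 hf i

theorem j5530_Nv {F : Type*} [NormedAddCommGroup F] [NormedSpace ℝ F] {f : F → R3}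
    (hf : ContDiff ℝ ∞ f) : ContDiff ℝ ∞ (fun x => Nv (f x)) := by
  have h0 := j5530_coord hf 0
  have h1 := j5530_coord hf 1
  have h2 := j5530_coord hf 2
  rw [contDiff_euclidean]
  intro i
  fin_cases i
  · simp only [Nv]
    exact (h0.mul h2).neg
  · simp only [Nv]
    exact (h1.mul h2).neg
  · simp only [Nv]
    exact contDiff_const.sub (h2.pow 2)

theorem j5530_Tv {F : Type*} [NormedAddCommGroup F] [NormedSpace ℝ F] {f : F → R3}
    (hf : ContDiff ℝ ∞ f) : ContDiff ℝ ∞ (fun x => Tv (f x)) := by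
  have h0 := j5530_coord hf 0
  have h1 := j5530_coord hf 1
  rw [contDiff_euclidean]
  intro i
  fin_cases i
  · simp only [Tv]
    exact h1.neg
  · simp only [Tv]
    exact h0
  · simp only [Tv]
    exact contDiff_const

theorem j5530_MW {F : Type*} [NormedAddCommGroup F] [NormedSpace ℝ F] {f g : F → R3}
    (hf : ContDiff ℝ ∞ f) (hg : ContDiff ℝ ∞ g) (v : W6) :
    ContDiff ℝ ∞ (fun x => MW (f x) (g x) v) := by
  unfold MW
  refine ContDiff.prodMk ?_ ?_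
  · exact ((j5530_Nv hf).const_smul _).add
      (ContDiff.smul (((j5530_coord hg 0).mul contDiff_const).sub ((j5530_coord hg 1).mul contDiff_const)) (j5530_Tv hf))
  · exact ((j5530_Nv hg).const_smul _).sub
      (ContDiff.smul (((j5530_coord hf 0).mul contDiff_const).sub ((j5530_coord hf 1).mul contDiff_const)) (j5530_Tv hg))

theorem j5530_Jt_apply (t : ℝ) (z z' : R3) (v : W6) :
    Jt t z z' v = coefC t (z 2) (z' 2) • (cross z v.1, cross z' v.2) +
      coefS t (z 2) (z' 2) • MW z z' v := Jamb_apply _ _ _ _ _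

theorem j5530_gen {c3 : ℝ → ℝ → ℝ → ℝ} (hc : ContDiff ℝ ∞ (fun p : ℝ × ℝ × ℝ => c3 p.1 p.2.1 p.2.2))
    {F : Type*} [NormedAddCommGroup F] [NormedSpace ℝ F] {t : F → ℝ} {f g : F → R3}
    (ht : ContDiff ℝ ∞ t) (hf : ContDiff ℝ ∞ f) (hg : ContDiff ℝ ∞ g) :
    ContDiff ℝ ∞ (fun x => c3 (t x) (f x 2) (g x 2)) := by
  have h : ContDiff ℝ ∞ (fun x => (t x, f x 2, g x 2)) :=
    ht.prodMk ((j5530_coord hf 2).prodMk (j5530_coord hg 2))
  exact ContDiff.comp (g := fun p : ℝ × ℝ × ℝ => c3 p.1 p.2.1 p.2.2) hc h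

theorem j5530_comb {F : Type*} [NormedAddCommGroup F] [NormedSpace ℝ F] {a b : F → ℝ} {u v : F → W6}
    (ha : ContDiff ℝ ∞ a) (hb : ContDiff ℝ ∞ b) (hu : ContDiff ℝ ∞ u) (hv : ContDiff ℝ ∞ v) :
    ContDiff ℝ ∞ (fun x => a x • u x + b x • v x) :=
  ContDiff.add (ContDiff.smul ha hu) (ContDiff.smul hb hv)

theorem j5530_Jt {F : Type*} [NormedAddCommGroup F] [NormedSpace ℝ F] {t : F → ℝ} {f g : F → R3}
    (ht : ContDiff ℝ ∞ t) (hf : ContDiff ℝ ∞ f) (hg : ContDiff ℝ ∞ g) :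
    ContDiff ℝ ∞ (fun x => Jt (t x) (f x) (g x)) := by
  have hC := j5530_gen (c3 := coefC) contDiff_coefC ht hf hg
  have hS := j5530_gen (c3 := coefS) contDiff_coefS ht hf hg
  rw [contDiff_clm_apply_iff]
  intro v
  simp only [j5530_Jt_apply]
  have h1 : ContDiff ℝ ∞ (fun x => ((cross (f x) v.1, cross (g x) v.2) : W6)) :=
    (contDiff_cross hf contDiff_const).prodMk (contDiff_cross hg contDiff_const)
  exact j5530_comb hC hS h1 (j5530_MW hf hg v)

theorem j5530_prodMap {F A B C D : Type} [NormedAddCommGroup F] [NormedSpace ℝ F]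
    [NormedAddCommGroup A] [NormedSpace ℝ A] [NormedAddCommGroup B] [NormedSpace ℝ B]
    [NormedAddCommGroup C] [NormedSpace ℝ C] [NormedAddCommGroup D] [NormedSpace ℝ D]
    {f : F → A →L[ℝ] B} {g : F → C →L[ℝ] D} (hf : ContDiff ℝ ∞ f) (hg : ContDiff ℝ ∞ g) :
    ContDiff ℝ ∞ (fun x => (f x).prodMap (g x)) :=
  (ContinuousLinearMap.prodMapL ℝ A B C D).contDiff.comp (hf.prodMk hg)

theorem contDiff_coordEndo4 (Z Z' : E2 → R3) (hZ : ContDiff ℝ ∞ Z) (hZ' : ContDiff ℝ ∞ Z')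
    (P P' : E2 → R3 →L[ℝ] E2) (hP : ContDiff ℝ ∞ P) (hP' : ContDiff ℝ ∞ P') :
    ContDiff ℝ ∞ (fun p : ℝ × E4 => coordEndo4 Z Z' P P' p.1 p.2) := by
  have y1 : ContDiff ℝ ∞ (fun p : ℝ × E4 => p.2.1) := contDiff_fst.comp contDiff_snd
  have y2 : ContDiff ℝ ∞ (fun p : ℝ × E4 => p.2.2) := contDiff_snd.comp contDiff_snd
  have hdZ : ContDiff ℝ ∞ (fderiv ℝ Z) := hZ.fderiv_right (by simp)
  have hdZ' : ContDiff ℝ ∞ (fderiv ℝ Z') := hZ'.fderiv_right (by simp)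
  have a1 : ContDiff ℝ ∞ (fun p : ℝ × E4 => (P p.2.1).prodMap (P' p.2.2)) :=
    j5530_prodMap (hP.comp y1) (hP'.comp y2)
  have a2 : ContDiff ℝ ∞ (fun p : ℝ × E4 => (fderiv ℝ Z p.2.1).prodMap (fderiv ℝ Z' p.2.2)) :=
    j5530_prodMap (hdZ.comp y1) (hdZ'.comp y2)
  have a3 : ContDiff ℝ ∞ (fun p : ℝ × E4 => Jt p.1 (Z p.2.1) (Z' p.2.2)) :=
    j5530_Jt contDiff_fst (hZ.comp y1) (hZ'.comp y2)
  exact a1.clm_comp (a3.clm_comp a2)

/-- A closed 1-form `P dp + Q dt` on the sphere in spherical coordinates `(t, p)` (`t` longitude,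
`p` colatitude) has a primitive, which is periodic in the longitude. -/
theorem exists_primitive (P Q : ℝ × ℝ → ℝ) (hP : ContDiff ℝ ∞ P) (hQ : ContDiff ℝ ∞ Q)
    (hPper : ∀ q : ℝ × ℝ, P (q.1 + 2 * Real.pi, q.2) = P q)
    (hclosed : ∀ q, fderiv ℝ P q (1, 0) = fderiv ℝ Q q (0, 1))
    (h0 : ∀ t, Q (t, 0) = 0) :
    ∃ g : ℝ × ℝ → ℝ, ContDiff ℝ 2 g ∧ (∀ q : ℝ × ℝ, g (q.1 + 2 * Real.pi, q.2) = g q) ∧
      (∀ q, fderiv ℝ g q (0, 1) = P q) ∧ (∀ q, fderiv ℝ g q (1, 0) = Q q) := by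
  have hPd : Differentiable ℝ P := hP.differentiable (by simp)
  have hQd : Differentiable ℝ Q := hQ.differentiable (by simp)
  let om : ℝ × ℝ → (ℝ × ℝ →L[ℝ] ℝ) := fun q =>
    P q • ContinuousLinearMap.snd ℝ ℝ ℝ + Q q • ContinuousLinearMap.fst ℝ ℝ ℝ
  have hω : ContDiff ℝ ∞ om := (hP.smul contDiff_const).add (hQ.smul contDiff_const)
  have hωd : Differentiable ℝ om := hω.differentiable (by simp)
  have hfd : ∀ q x y, fderiv ℝ om q x y = fderiv ℝ P q x * y.2 + fderiv ℝ Q q x * y.1 := by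
    intro q x y
    have h1 : HasFDerivAt om ((fderiv ℝ P q).smulRight (ContinuousLinearMap.snd ℝ ℝ ℝ) +
        (fderiv ℝ Q q).smulRight (ContinuousLinearMap.fst ℝ ℝ ℝ)) q :=
      ((hPd q).hasFDerivAt.smul_const (ContinuousLinearMap.snd ℝ ℝ ℝ)).add
        ((hQd q).hasFDerivAt.smul_const (ContinuousLinearMap.fst ℝ ℝ ℝ))
    rw [h1.fderiv]
    simp
  have hdec : ∀ (L : ℝ × ℝ →L[ℝ] ℝ) (x : ℝ × ℝ), L x = x.1 * L (1, 0) + x.2 * L (0, 1) := by
    intro L x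
    have : x = x.1 • ((1 : ℝ), (0 : ℝ)) + x.2 • ((0 : ℝ), (1 : ℝ)) := by
      ext <;> simp
    conv_lhs => rw [this]
    rw [map_add, map_smul, map_smul, smul_eq_mul, smul_eq_mul]
  obtain ⟨g, hg⟩ := convex_univ.exists_forall_hasFDerivAt_of_fderiv_symmetric isOpen_univ
    (hωd.differentiableOn (s := univ)) (by
      intro a _ x y
      rw [hfd, hfd, hdec (fderiv ℝ P a) x, hdec (fderiv ℝ P a) y, hdec (fderiv ℝ Q a) x,
        hdec (fderiv ℝ Q a) y, hclosed]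
      ring)
  have hg' : ∀ q, HasFDerivAt g (om q) q := fun q => hg q (mem_univ q)
  have hgf : fderiv ℝ g = om := by
    funext q
    exact (hg' q).fderiv
  have hgd : Differentiable ℝ g := fun q => (hg' q).differentiableAt
  have hshift : ∀ q : ℝ × ℝ, (q.1 + 2 * Real.pi, q.2) = q + (2 * Real.pi, 0) := by
    intro q; ext <;> simp
  have hPs : ∀ q, fderiv ℝ P (q + (2 * Real.pi, 0)) = fderiv ℝ P q := by
    intro q
    have h1 : (fun x => P (x + (2 * Real.pi, 0))) = P := by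
      funext x
      rw [← hshift, hPper]
    rw [← fderiv_comp_add_right, h1]
  -- Q is periodic
  have hQper : ∀ q : ℝ × ℝ, Q (q + (2 * Real.pi, 0)) = Q q := by
    rintro ⟨t, p⟩
    have hder : ∀ (s x : ℝ), HasDerivAt (fun x => Q (s, x)) (fderiv ℝ Q (s, x) (0, 1)) x := by
      intro s x
      have h1 : HasDerivAt (fun x : ℝ => ((s, x) : ℝ × ℝ)) ((0, 1) : ℝ × ℝ) x :=
        (hasDerivAt_const x s).prodMk (hasDerivAt_id x)
      exact (hQd (s, x)).hasFDerivAt.comp_hasDerivAt x h1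
    have h2 : ∀ x, HasDerivAt (fun x => Q (t + 2 * Real.pi, x) - Q (t, x)) 0 x := by
      intro x
      have h3 := (hder (t + 2 * Real.pi) x).sub (hder t x)
      have h4 : fderiv ℝ Q (t + 2 * Real.pi, x) (0, 1) - fderiv ℝ Q (t, x) (0, 1) = 0 := by
        rw [← hclosed, ← hclosed, hshift (t, x), hPs, sub_self]
      rwa [h4] at h3
    have h5 := is_const_of_deriv_eq_zero (f := fun x => Q (t + 2 * Real.pi, x) - Q (t, x))
      (fun x => (h2 x).differentiableAt) (fun x => (h2 x).deriv) p 0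
    simp only [h0, sub_self] at h5
    rw [← hshift (t, p)]
    exact sub_eq_zero.1 h5
  refine ⟨g, ?_, ?_, ?_, ?_⟩
  · rw [show (2 : WithTop ℕ∞) = 1 + 1 by norm_num, contDiff_succ_iff_fderiv]
    refine ⟨hgd, by simp, ?_⟩
    rw [hgf]
    exact hω.of_le (by exact_mod_cast le_top)
  · intro q
    rw [hshift]
    have h1 : ∀ q, HasFDerivAt (fun x => g (x + (2 * Real.pi, 0)) - g x)
        (0 : ℝ × ℝ →L[ℝ] ℝ) q := by
      intro q
      have h2 : HasFDerivAt (fun x => g (x + (2 * Real.pi, 0))) (om (q + (2 * Real.pi, 0))) q :=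
        (hasFDerivAt_comp_add_right (2 * Real.pi, 0)).2 (hg' (q + (2 * Real.pi, 0)))
      have h3 := h2.sub (hg' q)
      have h4 : om (q + (2 * Real.pi, 0)) - om q = 0 := by
        simp only [om]
        rw [hQper, ← hshift, hPper, sub_self]
      rwa [h4] at h3
    have h5 := is_const_of_fderiv_eq_zero (𝕜 := ℝ) (f := fun x => g (x + (2 * Real.pi, 0)) - g x)
      (fun x => (h1 x).differentiableAt) (fun x => (h1 x).fderiv) q (0, 0)
    have h6 : ∀ t, HasDerivAt (fun t => g (t, 0)) 0 t := by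
      intro t
      have h7 : HasDerivAt (fun x : ℝ => ((x, 0) : ℝ × ℝ)) ((1, 0) : ℝ × ℝ) t :=
        (hasDerivAt_id t).prodMk (hasDerivAt_const t 0)
      have h8 := (hg' (t, 0)).comp_hasDerivAt t h7
      have h9 : om (t, 0) (1, 0) = 0 := by
        simp only [om, h0]
        simp
      rw [h9] at h8
      exact h8
    have h10 := is_const_of_deriv_eq_zero (f := fun t => g (t, 0))
      (fun x => (h6 x).differentiableAt) (fun x => (h6 x).deriv) (2 * Real.pi) 0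
    have h11 : g ((0, 0) + (2 * Real.pi, 0)) = g (2 * Real.pi, 0) := by
      congr 1; ext <;> simp
    simp only [h11] at h5
    rw [h10, sub_self] at h5
    exact sub_eq_zero.1 h5
  · intro q
    rw [hgf]
    simp [om]
  · intro q
    rw [hgf]
    simp [om]

theorem eq_zero_of_integral_aux (h : ℝ → ℝ) (hc : Continuous h) (a b : ℝ) (hab : a < b)
    (hpos : ∀ x, a ≤ x → x ≤ b → 0 ≤ h x) (hint : ∫ x in a..b, h x = 0) (x : ℝ)
    (hx1 : a ≤ x) (hx2 : x ≤ b) : h x = 0 := by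
  by_contra hne
  have hx : 0 < h x := lt_of_le_of_ne (hpos x hx1 hx2) (Ne.symm hne)
  have := intervalIntegral.integral_pos hab hc.continuousOn (fun y hy => hpos y hy.1.le hy.2)
    ⟨x, ⟨hx1, hx2⟩, hx⟩
  linarith

/-- A continuous nonnegative function on a rectangle with zero integral vanishes. -/
theorem eq_zero_of_integral (F : ℝ × ℝ → ℝ) (hF : Continuous F)
    (hpos : ∀ t p, 0 ≤ p → p ≤ Real.pi → 0 ≤ F (t, p))
    (hper : ∀ q : ℝ × ℝ, F (q.1 + 2 * Real.pi, q.2) = F q)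
    (hint : ∫ t in (0 : ℝ)..(2 * Real.pi), ∫ p in (0 : ℝ)..Real.pi, F (t, p) = 0) (t p : ℝ)
    (hp0 : 0 ≤ p) (hp1 : p ≤ Real.pi) : F (t, p) = 0 := by
  have hpi := Real.pi_pos
  have hcG : Continuous (fun t : ℝ => ∫ p in (0 : ℝ)..Real.pi, F (t, p)) := by
    apply intervalIntegral.continuous_parametric_intervalIntegral_of_continuous'
    exact hF
  have hG : ∀ s : ℝ, 0 ≤ s → s ≤ 2 * Real.pi → ∫ p in (0 : ℝ)..Real.pi, F (s, p) = 0 := by
    intro s hs0 hs1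
    exact eq_zero_of_integral_aux (fun t : ℝ => ∫ p in (0 : ℝ)..Real.pi, F (t, p)) hcG 0
      (2 * Real.pi) (by positivity) (fun x _ _ => intervalIntegral.integral_nonneg hpi.le
        (fun p hp => hpos x p hp.1 hp.2)) hint s hs0 hs1
  have hper' : Function.Periodic (fun t => F (t, p)) (2 * Real.pi) := fun t => hper (t, p)
  obtain ⟨s, hs, hs2⟩ := hper'.exists_mem_Ico₀ (by positivity) t
  have hs3 : F (t, p) = F (s, p) := hs2
  rw [hs3]
  exact eq_zero_of_integral_aux (fun p => F (s, p)) (hF.comp (by fun_prop)) 0 Real.pi hpi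
    (fun x h0 h1 => hpos s x h0 h1) (hG s hs.1 hs.2.le) p hp0 hp1

/-- A smooth function `A` whose derivative is nonnegative, and positive exactly on
`(-1/2, 1/2)`. -/
theorem exists_cutoff : ∃ A ψ : ℝ → ℝ, ContDiff ℝ ∞ A ∧ ContDiff ℝ ∞ ψ ∧
    (∀ x, HasDerivAt A (ψ x) x) ∧ (∀ x, 0 ≤ ψ x) ∧ (∀ x, |x| < 1 / 2 → 0 < ψ x) ∧
    (∀ x, 1 / 2 ≤ |x| → ψ x = 0) := by
  have hψ : ContDiff ℝ ∞ (fun x : ℝ => expNegInvGlue (1 / 4 - x ^ 2)) :=
    expNegInvGlue.contDiff.comp (contDiff_const.sub (contDiff_id.pow 2))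
  have hder : ∀ x : ℝ, HasDerivAt (fun x : ℝ => ∫ t in (0 : ℝ)..x, expNegInvGlue (1 / 4 - t ^ 2))
      (expNegInvGlue (1 / 4 - x ^ 2)) x := fun x =>
    intervalIntegral.integral_hasDerivAt_right (hψ.continuous.intervalIntegrable _ _)
      hψ.continuous.stronglyMeasurable.stronglyMeasurableAtFilter hψ.continuous.continuousAt
  refine ⟨fun x => ∫ t in (0 : ℝ)..x, expNegInvGlue (1 / 4 - t ^ 2),
    fun x => expNegInvGlue (1 / 4 - x ^ 2), ?_, hψ, hder, ?_, ?_, ?_⟩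
  · rw [contDiff_infty_iff_deriv]
    refine ⟨fun x => (hder x).differentiableAt, ?_⟩
    have e : deriv (fun x : ℝ => ∫ t in (0 : ℝ)..x, expNegInvGlue (1 / 4 - t ^ 2)) =
        fun x => expNegInvGlue (1 / 4 - x ^ 2) := funext fun x => (hder x).deriv
    rw [e]; exact hψ
  · intro x
    exact expNegInvGlue.nonneg _
  · intro x hx
    apply expNegInvGlue.pos_of_pos
    have h1 := abs_lt.mp hx
    nlinarith [h1.1, h1.2]
  · intro x hx
    apply expNegInvGlue.zero_of_nonpos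
    have h1 : (1 / 2 : ℝ) ^ 2 ≤ |x| ^ 2 := pow_le_pow_left₀ (by norm_num) hx 2
    rw [sq_abs] at h1
    linarith

/-- The situation in spherical coordinates: `z` and `z'` are smooth maps to the unit sphere,
periodic in the longitude, and satisfy the Cauchy-Riemann equation. -/
structure IsSol (z z' : ℝ × ℝ → R3) : Prop where
  smooth : ContDiff ℝ ∞ z
  smooth' : ContDiff ℝ ∞ z'
  unit : ∀ q, inner ℝ (z q) (z q) = (1 : ℝ)
  unit' : ∀ q, inner ℝ (z' q) (z' q) = (1 : ℝ)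
  per : ∀ q : ℝ × ℝ, z (q.1 + 2 * Real.pi, q.2) = z q
  per' : ∀ q : ℝ × ℝ, z' (q.1 + 2 * Real.pi, q.2) = z' q
  cover : ∀ q : ℝ × ℝ, ∃ q' : ℝ × ℝ, 0 ≤ q'.2 ∧ q'.2 ≤ Real.pi ∧ z q = z q' ∧ z' q = z' q'
  eq : ∀ q : ℝ × ℝ, ((fderiv ℝ z q (1, 0), fderiv ℝ z' q (1, 0)) : W6)
    = Real.sin q.2 • Jt 1 (z q) (z' q) (fderiv ℝ z q (0, 1), fderiv ℝ z' q (0, 1))

variable {z z' : ℝ × ℝ → R3}

theorem height_aux {g : ℝ × ℝ → R3} (hg : ContDiff ℝ ∞ g) (q v : ℝ × ℝ) :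
    fderiv ℝ (fun x => g x 2) q v = (fderiv ℝ g q v) 2 := by
  have h1 : HasFDerivAt g (fderiv ℝ g q) q := (hg.differentiable (by simp) q).hasFDerivAt
  have h2 : HasFDerivAt (fun x => (EuclideanSpace.proj 2 : R3 →L[ℝ] ℝ) (g x))
      ((EuclideanSpace.proj 2 : R3 →L[ℝ] ℝ).comp (fderiv ℝ g q)) q :=
    (EuclideanSpace.proj 2 : R3 →L[ℝ] ℝ).hasFDerivAt.comp q h1
  have h3 : (fun x => g x 2) = fun x => (EuclideanSpace.proj 2 : R3 →L[ℝ] ℝ) (g x) := rfl
  rw [h3, h2.fderiv]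
  rfl

theorem orth_aux {g : ℝ × ℝ → R3} (hg : ContDiff ℝ ∞ g) (hu : ∀ q, inner ℝ (g q) (g q) = (1 : ℝ))
    (q v : ℝ × ℝ) : inner ℝ (g q) (fderiv ℝ g q v) = (0 : ℝ) := by
  have h1 : DifferentiableAt ℝ g q := hg.differentiable (by simp) q
  have h2 := fderiv_inner_apply ℝ h1 h1 v
  have h3 : (fun t => (inner ℝ (g t) (g t) : ℝ)) = fun _ => (1 : ℝ) := funext hu
  rw [h3] at h2
  rw [real_inner_comm (g q) (fderiv ℝ g q v)] at h2
  simp only [fderiv_fun_const, Pi.zero_apply, ContinuousLinearMap.zero_apply] at h2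
  linarith

theorem IsSol.fderiv_height (h : IsSol z z') (q v : ℝ × ℝ) :
    fderiv ℝ (fun x => z x 2) q v = (fderiv ℝ z q v) 2 ∧
      fderiv ℝ (fun x => z' x 2) q v = (fderiv ℝ z' q v) 2 :=
  ⟨height_aux h.smooth q v, height_aux h.smooth' q v⟩

theorem IsSol.orth (h : IsSol z z') (q v : ℝ × ℝ) :
    inner ℝ (z q) (fderiv ℝ z q v) = (0 : ℝ) ∧ inner ℝ (z' q) (fderiv ℝ z' q v) = (0 : ℝ) :=
  ⟨orth_aux h.smooth h.unit q v, orth_aux h.smooth' h.unit' q v⟩

theorem IsSol.pole (h : IsSol z z') (q : ℝ × ℝ) (hq : Real.sin q.2 = 0) :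
    fderiv ℝ z q (1, 0) = 0 ∧ fderiv ℝ z' q (1, 0) = 0 := by
  have h1 := h.eq q
  rw [hq, zero_smul] at h1
  exact ⟨congrArg Prod.fst h1, congrArg Prod.snd h1⟩

/-- In the region `|z 2|, |z' 2| < 1/2` the heights and the rotation forms satisfy
Cauchy-Riemann equations. -/
theorem IsSol.region (h : IsSol z z') (q : ℝ × ℝ) (hq : |z q 2| < 1 / 2) (hq' : |z' q 2| < 1 / 2) :
    ∃ s : ℝ, 0 < s ∧
      (fderiv ℝ z q (1, 0)) 2
        = -(Real.sin q.2 * s * (1 - z q 2 ^ 2)) * (fderiv ℝ z' q (0, 1)) 2 ∧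
      (fderiv ℝ z' q (1, 0)) 2
        = Real.sin q.2 * s * (1 - z' q 2 ^ 2) * (fderiv ℝ z q (0, 1)) 2 ∧
      z q 0 * (fderiv ℝ z q (1, 0)) 1 - z q 1 * (fderiv ℝ z q (1, 0)) 0
        = Real.sin q.2 * s * (1 - z q 2 ^ 2)
          * (z' q 0 * (fderiv ℝ z' q (0, 1)) 1 - z' q 1 * (fderiv ℝ z' q (0, 1)) 0) ∧
      z' q 0 * (fderiv ℝ z' q (1, 0)) 1 - z' q 1 * (fderiv ℝ z' q (1, 0)) 0
        = -(Real.sin q.2 * s * (1 - z' q 2 ^ 2))
          * (z q 0 * (fderiv ℝ z q (0, 1)) 1 - z q 1 * (fderiv ℝ z q (0, 1)) 0) := by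
  obtain ⟨hc, hs⟩ := coef_mid (z q 2) (z' q 2) hq.le hq'.le
  refine ⟨coefS 1 (z q 2) (z' q 2), hs, ?_⟩
  set s : ℝ := coefS 1 (z q 2) (z' q 2) with hsdef
  have heq := h.eq q
  have hJ : Jt 1 (z q) (z' q) (fderiv ℝ z q (0, 1), fderiv ℝ z' q (0, 1)) =
      s • MW (z q) (z' q) (fderiv ℝ z q (0, 1), fderiv ℝ z' q (0, 1)) := by
    unfold Jt
    rw [Jamb_apply, hc, zero_smul, zero_add]
  rw [hJ] at heq
  have e1 : fderiv ℝ z q (1, 0) = Real.sin q.2 • s • ((-((fderiv ℝ z' q (0, 1)) 2)) • Nv (z q) +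
      (z' q 0 * (fderiv ℝ z' q (0, 1)) 1 - z' q 1 * (fderiv ℝ z' q (0, 1)) 0) • Tv (z q)) :=
    congrArg Prod.fst heq
  have e2 : fderiv ℝ z' q (1, 0) = Real.sin q.2 • s • (((fderiv ℝ z q (0, 1)) 2) • Nv (z' q) -
      (z q 0 * (fderiv ℝ z q (0, 1)) 1 - z q 1 * (fderiv ℝ z q (0, 1)) 0) • Tv (z' q)) :=
    congrArg Prod.snd heq
  have hu := h.unit q
  have hu' := h.unit' q
  rw [inner_r3] at hu hu'
  have n0 : ∀ a : R3, Nv a 0 = -(a 0 * a 2) := fun a => by simp [Nv]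
  have n1 : ∀ a : R3, Nv a 1 = -(a 1 * a 2) := fun a => by simp [Nv]
  have n2 : ∀ a : R3, Nv a 2 = 1 - a 2 ^ 2 := fun a => by simp [Nv]
  have t0 : ∀ a : R3, Tv a 0 = -(a 1) := fun a => by simp [Tv]
  have t1 : ∀ a : R3, Tv a 1 = a 0 := fun a => by simp [Tv]
  have t2 : ∀ a : R3, Tv a 2 = 0 := fun a => by simp [Tv]
  rw [e1, e2]
  simp only [PiLp.smul_apply, PiLp.add_apply, PiLp.sub_apply, smul_eq_mul, n0, n1, n2, t0, t1, t2]
  refine ⟨by ring, by ring, ?_, ?_⟩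
  · linear_combination (Real.sin q.2 * s * (z' q 0 * (fderiv ℝ z' q (0, 1)) 1 -
      z' q 1 * (fderiv ℝ z' q (0, 1)) 0)) * hu
  · linear_combination (-(Real.sin q.2 * s * (z q 0 * (fderiv ℝ z q (0, 1)) 1 -
      z q 1 * (fderiv ℝ z q (0, 1)) 0))) * hu'

/-- Stage 1: the heights are locally constant in the region. Use `stokes_sph` with
`g = A ∘ (z · 2)` and `s = A ∘ (z' · 2)` where `A` is from `exists_cutoff`. -/
theorem IsSol.heights_zero (h : IsSol z z') (q : ℝ × ℝ) (hp0 : 0 < q.2) (hp1 : q.2 < Real.pi)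
    (hq : |z q 2| < 1 / 2) (hq' : |z' q 2| < 1 / 2) :
    fderiv ℝ (fun x => z x 2) q = 0 ∧ fderiv ℝ (fun x => z' x 2) q = 0 := by
  obtain ⟨A, ψ, hA, hψ, hd, hψ0, hψ1, hψ2⟩ := exists_cutoff
  set a : ℝ × ℝ → ℝ := fun x => z x 2 with ha_def
  set b : ℝ × ℝ → ℝ := fun x => z' x 2 with hb_def
  have ha : ContDiff ℝ ∞ a := (EuclideanSpace.proj (2 : Fin 3) : R3 →L[ℝ] ℝ).contDiff.comp h.smooth
  have hb : ContDiff ℝ ∞ b := (EuclideanSpace.proj (2 : Fin 3) : R3 →L[ℝ] ℝ).contDiff.comp h.smooth'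
  have hda : Differentiable ℝ a := ha.differentiable (by norm_num)
  have hdb : Differentiable ℝ b := hb.differentiable (by norm_num)
  have hg : ContDiff ℝ ∞ (fun x => A (a x)) := hA.comp ha
  have hs : ContDiff ℝ ∞ (fun x => A (b x)) := hA.comp hb
  have hfg : ∀ x v, fderiv ℝ (fun x => A (a x)) x v = ψ (a x) * fderiv ℝ a x v := by
    intro x v
    have h1 : HasFDerivAt (fun x => A (a x)) (ψ (a x) • fderiv ℝ a x) x :=
      (hd (a x)).comp_hasFDerivAt x (hda x).hasFDerivAt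
    rw [h1.fderiv]
    rfl
  have hfs : ∀ x v, fderiv ℝ (fun x => A (b x)) x v = ψ (b x) * fderiv ℝ b x v := by
    intro x v
    have h1 : HasFDerivAt (fun x => A (b x)) (ψ (b x) • fderiv ℝ b x) x :=
      (hd (b x)).comp_hasFDerivAt x (hdb x).hasFDerivAt
    rw [h1.fderiv]
    rfl
  have haper : ∀ q : ℝ × ℝ, a (q.1 + 2 * Real.pi, q.2) = a q := by
    intro q
    show z (q.1 + 2 * Real.pi, q.2) 2 = z q 2
    rw [h.per q]
  have hbper : ∀ q : ℝ × ℝ, b (q.1 + 2 * Real.pi, q.2) = b q := by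
    intro q
    show z' (q.1 + 2 * Real.pi, q.2) 2 = z' q 2
    rw [h.per' q]
  have hfper : ∀ f : ℝ × ℝ → ℝ, (∀ q : ℝ × ℝ, f (q.1 + 2 * Real.pi, q.2) = f q) →
      ∀ q : ℝ × ℝ, fderiv ℝ f (q.1 + 2 * Real.pi, q.2) = fderiv ℝ f q := by
    intro f hf q
    have h1 : (fun x : ℝ × ℝ => f (x + (2 * Real.pi, 0))) = f := by
      funext x
      have : x + (2 * Real.pi, 0) = (x.1 + 2 * Real.pi, x.2) := by
        ext <;> simp
      rw [this, hf x]
    have h2 : (q.1 + 2 * Real.pi, q.2) = q + (2 * Real.pi, 0) := by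
      ext <;> simp
    rw [h2, ← fderiv_comp_add_right, h1]
  have hst := stokes_sph (fun x => A (a x)) (fun x => A (b x))
    (hg.of_le (by norm_cast)) (hs.of_le (by norm_cast))
    (fun q => by
      show A (a (q.1 + 2 * Real.pi, q.2)) = A (a q)
      rw [haper q])
    (fun q => by
      show A (b (q.1 + 2 * Real.pi, q.2)) = A (b q)
      rw [hbper q])
    (fun t => by
      rw [hfg, (h.fderiv_height (t, 0) (1, 0)).1, (h.pole (t, 0) (by simp)).1]
      simp)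
    (fun t => by
      rw [hfg, (h.fderiv_height (t, Real.pi) (1, 0)).1, (h.pole (t, Real.pi) (by simp)).1]
      simp)
  set F : ℝ × ℝ → ℝ := fun x => fderiv ℝ (fun x => A (a x)) x (0, 1) *
      fderiv ℝ (fun x => A (b x)) x (1, 0)
        - fderiv ℝ (fun x => A (a x)) x (1, 0) * fderiv ℝ (fun x => A (b x)) x (0, 1) with hF_def
  have hFeq : ∀ x, F x = ψ (a x) * ψ (b x) * (fderiv ℝ a x (0, 1) * fderiv ℝ b x (1, 0)
      - fderiv ℝ a x (1, 0) * fderiv ℝ b x (0, 1)) := by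
    intro x
    simp only [hF_def, hfg, hfs]
    ring
  have hFc : Continuous F := by
    have c1 : Continuous (fderiv ℝ (fun x => A (a x))) := hg.continuous_fderiv (by norm_num)
    have c2 : Continuous (fderiv ℝ (fun x => A (b x))) := hs.continuous_fderiv (by norm_num)
    exact ((c1.clm_apply continuous_const).mul (c2.clm_apply continuous_const)).sub
      ((c1.clm_apply continuous_const).mul (c2.clm_apply continuous_const))
  have hreg : ∀ x : ℝ × ℝ, |a x| < 1 / 2 → |b x| < 1 / 2 → ∃ s : ℝ, 0 < s ∧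
      fderiv ℝ a x (1, 0) = -(Real.sin x.2 * s * (1 - a x ^ 2)) * fderiv ℝ b x (0, 1) ∧
      fderiv ℝ b x (1, 0) = Real.sin x.2 * s * (1 - b x ^ 2) * fderiv ℝ a x (0, 1) := by
    intro x hx hx'
    obtain ⟨s, hs0, h1, h2, _, _⟩ := h.region x hx hx'
    refine ⟨s, hs0, ?_, ?_⟩
    · rw [(h.fderiv_height x (1, 0)).1, (h.fderiv_height x (0, 1)).2]
      exact h1
    · rw [(h.fderiv_height x (1, 0)).2, (h.fderiv_height x (0, 1)).1]
      exact h2
  have hsq : ∀ y : ℝ, |y| < 1 / 2 → 0 < 1 - y ^ 2 := by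
    intro y hy
    have := abs_lt.1 hy
    nlinarith [this.1, this.2]
  have hFpos : ∀ t p, 0 ≤ p → p ≤ Real.pi → 0 ≤ F (t, p) := by
    intro t p hp hp'
    rw [hFeq]
    by_cases hx : |a (t, p)| < 1 / 2
    · by_cases hx' : |b (t, p)| < 1 / 2
      · obtain ⟨s, hs0, h1, h2⟩ := hreg (t, p) hx hx'
        rw [h1, h2]
        have hsin : 0 ≤ Real.sin p := Real.sin_nonneg_of_nonneg_of_le_pi hp hp'
        have e1 := hsq _ hx
        have e2 := hsq _ hx'
        have : fderiv ℝ a (t, p) (0, 1) *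
            (Real.sin (t, p).2 * s * (1 - b (t, p) ^ 2) * fderiv ℝ a (t, p) (0, 1)) -
            -(Real.sin (t, p).2 * s * (1 - a (t, p) ^ 2)) * fderiv ℝ b (t, p) (0, 1) *
              fderiv ℝ b (t, p) (0, 1) =
            Real.sin p * s * ((1 - b (t, p) ^ 2) * (fderiv ℝ a (t, p) (0, 1)) ^ 2 +
              (1 - a (t, p) ^ 2) * (fderiv ℝ b (t, p) (0, 1)) ^ 2) := by
          show fderiv ℝ a (t, p) (0, 1) *
            (Real.sin p * s * (1 - b (t, p) ^ 2) * fderiv ℝ a (t, p) (0, 1)) -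
            -(Real.sin p * s * (1 - a (t, p) ^ 2)) * fderiv ℝ b (t, p) (0, 1) *
              fderiv ℝ b (t, p) (0, 1) = _
          ring
        rw [this]
        exact mul_nonneg (mul_nonneg (hψ0 _) (hψ0 _)) (mul_nonneg (mul_nonneg hsin hs0.le)
          (add_nonneg (mul_nonneg e2.le (sq_nonneg _)) (mul_nonneg e1.le (sq_nonneg _))))
      · rw [hψ2 _ (not_lt.1 hx')]
        simp
    · rw [hψ2 _ (not_lt.1 hx)]
      simp
  have hFper : ∀ q : ℝ × ℝ, F (q.1 + 2 * Real.pi, q.2) = F q := by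
    intro q
    rw [hFeq, hFeq, haper, hbper, hfper a haper, hfper b hbper]
  have hF0 := eq_zero_of_integral F hFc hFpos hFper hst q.1 q.2 hp0.le hp1.le
  have hF0' : F q = 0 := hF0
  rw [hFeq] at hF0'
  obtain ⟨s, hs0, h1, h2⟩ := hreg q hq hq'
  have hsin : 0 < Real.sin q.2 := Real.sin_pos_of_pos_of_lt_pi hp0 hp1
  have e1 := hsq _ hq
  have e2 := hsq _ hq'
  have hψa := hψ1 _ hq
  have hψb := hψ1 _ hq'
  have h3 : fderiv ℝ a q (0, 1) * fderiv ℝ b q (1, 0)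
      - fderiv ℝ a q (1, 0) * fderiv ℝ b q (0, 1) = 0 := by
    rcases mul_eq_zero.1 hF0' with h' | h'
    · exact absurd h' (mul_pos hψa hψb).ne'
    · exact h'
  have h4 : Real.sin q.2 * s * ((1 - b q ^ 2) * (fderiv ℝ a q (0, 1)) ^ 2 +
              (1 - a q ^ 2) * (fderiv ℝ b q (0, 1)) ^ 2) = 0 := by
    refine Eq.trans ?_ h3
    rw [h1, h2]
    ring
  have h5 : (1 - b q ^ 2) * (fderiv ℝ a q (0, 1)) ^ 2 +
              (1 - a q ^ 2) * (fderiv ℝ b q (0, 1)) ^ 2 = 0 := by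
    rcases mul_eq_zero.1 h4 with h' | h'
    · exact absurd h' (mul_pos hsin hs0).ne'
    · exact h'
  have h6 : 0 ≤ (1 - b q ^ 2) * (fderiv ℝ a q (0, 1)) ^ 2 := mul_nonneg e2.le (sq_nonneg _)
  have h7 : 0 ≤ (1 - a q ^ 2) * (fderiv ℝ b q (0, 1)) ^ 2 := mul_nonneg e1.le (sq_nonneg _)
  have h8 : fderiv ℝ a q (0, 1) = 0 := by
    have : (1 - b q ^ 2) * (fderiv ℝ a q (0, 1)) ^ 2 = 0 := by linarith
    rcases mul_eq_zero.1 this with h' | h'
    · exact absurd h' e2.ne'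
    · exact pow_eq_zero_iff (two_ne_zero) |>.1 h'
  have h9 : fderiv ℝ b q (0, 1) = 0 := by
    have : (1 - a q ^ 2) * (fderiv ℝ b q (0, 1)) ^ 2 = 0 := by linarith
    rcases mul_eq_zero.1 this with h' | h'
    · exact absurd h' e1.ne'
    · exact pow_eq_zero_iff (two_ne_zero) |>.1 h'
  rw [h9, mul_zero] at h1
  rw [h8, mul_zero] at h2
  have key : ∀ L : ℝ × ℝ →L[ℝ] ℝ, L (1, 0) = 0 → L (0, 1) = 0 → L = 0 := by
    intro L hL1 hL2
    apply ContinuousLinearMap.ext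
    rintro ⟨x, y⟩
    have : ((x, y) : ℝ × ℝ) = x • (1, 0) + y • (0, 1) := by
      ext <;> simp
    rw [this, map_add, map_smul, map_smul, hL1, hL2]
    simp
  exact ⟨key _ h1 h8, key _ h2 h9⟩

/-- The heights are constant: the set of points of the open strip `0 < p < π` with the given
heights is open and closed in the strip. -/
theorem IsSol.heights_const (h : IsSol z z') (q₀ : ℝ × ℝ) (hq : |z q₀ 2| < 1 / 2)
    (hq' : |z' q₀ 2| < 1 / 2) (q : ℝ × ℝ) : z q 2 = z q₀ 2 ∧ z' q 2 = z' q₀ 2 := by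
  classical
  have hzd : Differentiable ℝ z := h.smooth.differentiable (by simp)
  have hzd' : Differentiable ℝ z' := h.smooth'.differentiable (by simp)
  have hd : Differentiable ℝ (fun x => z x 2) :=
    (EuclideanSpace.proj (𝕜 := ℝ) (ι := Fin 3) 2 : R3 →L[ℝ] ℝ).differentiable.comp hzd
  have hd' : Differentiable ℝ (fun x => z' x 2) :=
    (EuclideanSpace.proj (𝕜 := ℝ) (ι := Fin 3) 2 : R3 →L[ℝ] ℝ).differentiable.comp hzd'
  have hc : Continuous (fun x => z x 2) := hd.continuous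
  have hc' : Continuous (fun x => z' x 2) := hd'.continuous
  set O : Set (ℝ × ℝ) := univ ×ˢ Ioo 0 Real.pi with hO
  have hOopen : IsOpen O := isOpen_univ.prod isOpen_Ioo
  have hOpre : IsPreconnected O := isPreconnected_univ.prod isPreconnected_Ioo
  have hOcl : ∀ x : ℝ × ℝ, 0 ≤ x.2 → x.2 ≤ Real.pi → x ∈ closure O := by
    intro x hx0 hx1
    rw [hO, closure_prod_eq, closure_univ, closure_Ioo (by positivity)]
    exact ⟨mem_univ _, hx0, hx1⟩
  set R : Set (ℝ × ℝ) := {x | |z x 2| < 1 / 2} ∩ {x | |z' x 2| < 1 / 2} with hR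
  have hRopen : IsOpen R :=
    (isOpen_lt hc.abs continuous_const).inter (isOpen_lt hc'.abs continuous_const)
  -- reduce to the closed strip
  obtain ⟨q₀', h0, h1, hz0, hz0'⟩ := h.cover q₀
  have hq0R : q₀' ∈ R := by
    refine ⟨?_, ?_⟩
    · show |z q₀' 2| < 1 / 2
      rw [← hz0]; exact hq
    · show |z' q₀' 2| < 1 / 2
      rw [← hz0']; exact hq'
  obtain ⟨q₁, hq1R, hq1O⟩ := mem_closure_iff.1 (hOcl q₀' h0 h1) R hRopen hq0R
  set K : Set (ℝ × ℝ) := {x | z x 2 = z q₁ 2} ∩ {x | z' x 2 = z' q₁ 2} with hK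
  have hKcl : IsClosed K :=
    (isClosed_eq hc continuous_const).inter (isClosed_eq hc' continuous_const)
  have key : ∀ x ∈ O, x ∈ K → x ∈ interior K := by
    intro x hxO hxK
    have hxR : x ∈ R := by
      refine ⟨?_, ?_⟩
      · show |z x 2| < 1 / 2
        rw [show z x 2 = z q₁ 2 from hxK.1]; exact hq1R.1
      · show |z' x 2| < 1 / 2
        rw [show z' x 2 = z' q₁ 2 from hxK.2]; exact hq1R.2
    obtain ⟨r, hr, hball⟩ := Metric.isOpen_iff.1 (hOopen.inter hRopen) x ⟨hxO, hxR⟩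
    rw [mem_interior]
    refine ⟨ball x r, ?_, isOpen_ball, mem_ball_self hr⟩
    intro y hy
    have hpre : IsPreconnected (ball x r) := (convex_ball x r).isPreconnected
    have e1 : (fun x => z x 2) y = (fun x => z x 2) x := by
      refine isOpen_ball.is_const_of_fderiv_eq_zero (𝕜 := ℝ) hpre hd.differentiableOn ?_ hy
        (mem_ball_self hr)
      intro w hw
      have hw' := hball hw
      exact (h.heights_zero w hw'.1.2.1 hw'.1.2.2 hw'.2.1 hw'.2.2).1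
    have e2 : (fun x => z' x 2) y = (fun x => z' x 2) x := by
      refine isOpen_ball.is_const_of_fderiv_eq_zero (𝕜 := ℝ) hpre hd'.differentiableOn ?_ hy
        (mem_ball_self hr)
      intro w hw
      have hw' := hball hw
      exact (h.heights_zero w hw'.1.2.1 hw'.1.2.2 hw'.2.1 hw'.2.2).2
    exact ⟨e1.trans hxK.1, e2.trans hxK.2⟩
  have hsub : O ⊆ interior K := by
    refine hOpre.subset_of_closure_inter_subset isOpen_interior
      ⟨q₁, hq1O, key q₁ hq1O ⟨rfl, rfl⟩⟩ ?_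
    rintro x ⟨hx1, hx2⟩
    exact key x hx2 (hKcl.closure_subset_iff.2 interior_subset hx1)
  have hstrip : ∀ x : ℝ × ℝ, 0 ≤ x.2 → x.2 ≤ Real.pi → x ∈ K := fun x hx0 hx1 =>
    hKcl.closure_subset_iff.2 (hsub.trans interior_subset) (hOcl x hx0 hx1)
  obtain ⟨q', g0, g1, hz1, hz1'⟩ := h.cover q
  have a := hstrip q' g0 g1
  have b := hstrip q₀' h0 h1
  refine ⟨?_, ?_⟩
  · rw [hz1, hz0, show z q' 2 = z q₁ 2 from a.1, show z q₀' 2 = z q₁ 2 from b.1]
  · rw [hz1', hz0', show z' q' 2 = z' q₁ 2 from a.2, show z' q₀' 2 = z' q₁ 2 from b.2]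

/-- the rotation form `z₀ dz₁ - z₁ dz₀` in the direction `v` -/
def rotF (z : ℝ × ℝ → R3) (v q : ℝ × ℝ) : ℝ :=
  z q 0 * (fderiv ℝ z q v) 1 - z q 1 * (fderiv ℝ z q v) 0

theorem rotAux_comp {z : ℝ × ℝ → R3} (hz : ContDiff ℝ ∞ z) (q v : ℝ × ℝ) (i : Fin 3) :
    fderiv ℝ (fun x => z x i) q v = (fderiv ℝ z q v) i := by
  have h1 : HasFDerivAt z (fderiv ℝ z q) q := (hz.differentiable (by simp) q).hasFDerivAt
  have h2 := ((EuclideanSpace.proj i : R3 →L[ℝ] ℝ).hasFDerivAt (x := z q)).comp q h1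
  have h3 : fderiv ℝ (fun x => z x i) q = (EuclideanSpace.proj i : R3 →L[ℝ] ℝ).comp (fderiv ℝ z q) :=
    h2.fderiv
  rw [h3]
  rfl

theorem rotAux_smooth {z : ℝ × ℝ → R3} (hz : ContDiff ℝ ∞ z) (i : Fin 3) :
    ContDiff ℝ ∞ (fun x => z x i) :=
  (EuclideanSpace.proj i : R3 →L[ℝ] ℝ).contDiff.comp hz

theorem rotAux_fd {u w : ℝ × ℝ → ℝ} (hu : ContDiff ℝ ∞ u) (hw : ContDiff ℝ ∞ w) (q v e : ℝ × ℝ) :
    fderiv ℝ (fun q => u q * fderiv ℝ w q v - w q * fderiv ℝ u q v) q e =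
      (u q * fderiv ℝ (fderiv ℝ w) q e v + fderiv ℝ w q v * fderiv ℝ u q e) -
      (w q * fderiv ℝ (fderiv ℝ u) q e v + fderiv ℝ u q v * fderiv ℝ w q e) := by
  have hu1 : HasFDerivAt u (fderiv ℝ u q) q := (hu.differentiable (by simp) q).hasFDerivAt
  have hw1 : HasFDerivAt w (fderiv ℝ w q) q := (hw.differentiable (by simp) q).hasFDerivAt
  have hu2 : HasFDerivAt (fderiv ℝ u) (fderiv ℝ (fderiv ℝ u) q) q :=
    ((hu.fderiv_right (m := 1) (by norm_cast)).differentiable (by simp) q).hasFDerivAt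
  have hw2 : HasFDerivAt (fderiv ℝ w) (fderiv ℝ (fderiv ℝ w) q) q :=
    ((hw.fderiv_right (m := 1) (by norm_cast)).differentiable (by simp) q).hasFDerivAt
  have hu3 : HasFDerivAt (fun q => fderiv ℝ u q v)
      ((ContinuousLinearMap.apply ℝ ℝ v).comp (fderiv ℝ (fderiv ℝ u) q)) q :=
    (ContinuousLinearMap.apply ℝ ℝ v).hasFDerivAt.comp q hu2
  have hw3 : HasFDerivAt (fun q => fderiv ℝ w q v)
      ((ContinuousLinearMap.apply ℝ ℝ v).comp (fderiv ℝ (fderiv ℝ w) q)) q :=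
    (ContinuousLinearMap.apply ℝ ℝ v).hasFDerivAt.comp q hw2
  have h := (hu1.mul hw3).sub (hw1.mul hu3)
  have h' : fderiv ℝ (fun q => u q * fderiv ℝ w q v - w q * fderiv ℝ u q v) q = _ := h.fderiv
  rw [h']
  rfl

theorem contDiff_rotF (z : ℝ × ℝ → R3) (hz : ContDiff ℝ ∞ z) (v : ℝ × ℝ) :
    ContDiff ℝ ∞ (rotF z v) := by
  unfold rotF
  have h1 : ContDiff ℝ ∞ (fun q => fderiv ℝ z q v) :=
    (hz.fderiv_right (m := ∞) (by simp)).clm_apply contDiff_const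
  have h2 : ∀ i : Fin 3, ContDiff ℝ ∞ (fun q => (fderiv ℝ z q v) i) := fun i =>
    (EuclideanSpace.proj i : R3 →L[ℝ] ℝ).contDiff.comp h1
  exact ((rotAux_smooth hz 0).mul (h2 1)).sub ((rotAux_smooth hz 1).mul (h2 0))

theorem rotF_periodic (z : ℝ × ℝ → R3) (hper : ∀ q : ℝ × ℝ, z (q.1 + 2 * Real.pi, q.2) = z q)
    (v q : ℝ × ℝ) : rotF z v (q.1 + 2 * Real.pi, q.2) = rotF z v q := by
  have h1 : (fun x : ℝ × ℝ => z (x + (2 * Real.pi, 0))) = z := by
    funext x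
    have h2 : x + (2 * Real.pi, 0) = (x.1 + 2 * Real.pi, x.2) := by
      ext <;> simp
    rw [h2, hper]
  have h2 : fderiv ℝ z (q + (2 * Real.pi, 0)) = fderiv ℝ z q := by
    rw [← fderiv_comp_add_right, h1]
  have h3 : (q.1 + 2 * Real.pi, q.2) = q + (2 * Real.pi, 0) := by
    ext <;> simp
  unfold rotF
  rw [hper, h3, h2]

/-- The rotation form is closed if the height is constant. -/
theorem rotF_closed (z : ℝ × ℝ → R3) (hz : ContDiff ℝ ∞ z)
    (hu : ∀ q, inner ℝ (z q) (z q) = (1 : ℝ)) (c : ℝ) (hc : |c| < 1) (hq : ∀ q, z q 2 = c)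
    (q : ℝ × ℝ) : fderiv ℝ (rotF z (0, 1)) q (1, 0) = fderiv ℝ (rotF z (1, 0)) q (0, 1) := by
  set u : ℝ × ℝ → ℝ := fun x => z x 0 with hudef
  set w : ℝ × ℝ → ℝ := fun x => z x 1 with hwdef
  have hu' : ContDiff ℝ ∞ u := rotAux_smooth hz 0
  have hw' : ContDiff ℝ ∞ w := rotAux_smooth hz 1
  have hrot : ∀ v, rotF z v = fun q => u q * fderiv ℝ w q v - w q * fderiv ℝ u q v := by
    intro v
    funext q
    unfold rotF
    rw [← rotAux_comp hz, ← rotAux_comp hz]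
  rw [hrot, hrot, rotAux_fd hu' hw', rotAux_fd hu' hw']
  have hsymu : fderiv ℝ (fderiv ℝ u) q (1, 0) (0, 1) = fderiv ℝ (fderiv ℝ u) q (0, 1) (1, 0) :=
    (hu'.contDiffAt.isSymmSndFDerivAt (by simp; norm_cast)) (1, 0) (0, 1)
  have hsymw : fderiv ℝ (fderiv ℝ w) q (1, 0) (0, 1) = fderiv ℝ (fderiv ℝ w) q (0, 1) (1, 0) :=
    (hw'.contDiffAt.isSymmSndFDerivAt (by simp; norm_cast)) (1, 0) (0, 1)
  rw [hsymu, hsymw]
  -- the constraint
  have hcon : ∀ x, u x * u x + w x * w x = 1 - c ^ 2 := by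
    intro x
    have h1 := hu x
    rw [inner_r3, hq x] at h1
    linarith
  have hder : ∀ v, u q * fderiv ℝ u q v + w q * fderiv ℝ w q v = 0 := by
    intro v
    have hu1 : HasFDerivAt u (fderiv ℝ u q) q := (hu'.differentiable (by simp) q).hasFDerivAt
    have hw1 : HasFDerivAt w (fderiv ℝ w q) q := (hw'.differentiable (by simp) q).hasFDerivAt
    have h1 := (hu1.mul hu1).add (hw1.mul hw1)
    have h2 : HasFDerivAt (fun x => u x * u x + w x * w x) (0 : ℝ × ℝ →L[ℝ] ℝ) q := by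
      have : (fun x => u x * u x + w x * w x) = fun _ => 1 - c ^ 2 := funext hcon
      rw [this]
      exact hasFDerivAt_const _ _
    have h3 := h1.unique h2
    have h4 := congrArg (fun L : ℝ × ℝ →L[ℝ] ℝ => L v) h3
    have h5 : (u q * fderiv ℝ u q v + u q * fderiv ℝ u q v) +
        (w q * fderiv ℝ w q v + w q * fderiv ℝ w q v) = 0 := h4
    linarith
  have hd1 := hder (1, 0)
  have hd2 := hder (0, 1)
  have hpos : 0 < u q * u q + w q * w q := by
    rw [hcon]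
    have := abs_lt.1 hc
    nlinarith
  have hdet : fderiv ℝ u q (1, 0) * fderiv ℝ w q (0, 1) -
      fderiv ℝ w q (1, 0) * fderiv ℝ u q (0, 1) = 0 := by
    have h1 : (u q * u q + w q * w q) * (fderiv ℝ u q (1, 0) * fderiv ℝ w q (0, 1) -
      fderiv ℝ w q (1, 0) * fderiv ℝ u q (0, 1)) = 0 := by
      linear_combination (u q * fderiv ℝ w q (0, 1) - w q * fderiv ℝ u q (0, 1)) * hd1 +
        (w q * fderiv ℝ u q (1, 0) - u q * fderiv ℝ w q (1, 0)) * hd2
    rcases mul_eq_zero.1 h1 with h | h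
    · exact absurd h hpos.ne'
    · exact h
  linear_combination 2 * hdet

/-- Stage 2: the rotation forms vanish. Use `stokes_sph` with the primitives of
`exists_primitive`. -/
theorem IsSol.rotF_zero (h : IsSol z z') (c c' : ℝ) (hc : |c| < 1 / 2) (hc' : |c'| < 1 / 2)
    (hz : ∀ q, z q 2 = c) (hz' : ∀ q, z' q 2 = c') (q : ℝ × ℝ) (hp0 : 0 < q.2)
    (hp1 : q.2 < Real.pi) :
    rotF z (0, 1) q = 0 ∧ rotF z' (0, 1) q = 0 ∧ rotF z (1, 0) q = 0 ∧ rotF z' (1, 0) q = 0 := by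
  have hreg : ∀ q, ∃ s : ℝ, 0 < s ∧
      rotF z (1, 0) q = Real.sin q.2 * s * (1 - c ^ 2) * rotF z' (0, 1) q ∧
      rotF z' (1, 0) q = -(Real.sin q.2 * s * (1 - c' ^ 2)) * rotF z (0, 1) q := by
    intro q
    obtain ⟨s, hs, -, -, h3, h4⟩ := h.region q (by rw [hz]; exact hc) (by rw [hz']; exact hc')
    rw [hz] at h3
    rw [hz'] at h4
    exact ⟨s, hs, h3, h4⟩
  have hQ0 : ∀ q : ℝ × ℝ, Real.sin q.2 = 0 → rotF z (1, 0) q = 0 ∧ rotF z' (1, 0) q = 0 := by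
    intro q hq
    obtain ⟨s, hs, h1, h2⟩ := hreg q
    rw [h1, h2, hq]
    constructor <;> ring
  have hcsq : 0 < 1 - c ^ 2 := by
    have := abs_lt.mp hc
    nlinarith [this.1, this.2]
  have hcsq' : 0 < 1 - c' ^ 2 := by
    have := abs_lt.mp hc'
    nlinarith [this.1, this.2]
  obtain ⟨g, hg, hgper, hgP, hgQ⟩ := exists_primitive (rotF z (0, 1)) (rotF z (1, 0))
    (contDiff_rotF z h.smooth _) (contDiff_rotF z h.smooth _)
    (fun q => rotF_periodic z h.per _ q)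
    (rotF_closed z h.smooth h.unit c (by linarith) hz) (fun t => (hQ0 (t, 0) (by simp)).1)
  obtain ⟨g', hg', hgper', hgP', hgQ'⟩ := exists_primitive (rotF z' (0, 1)) (rotF z' (1, 0))
    (contDiff_rotF z' h.smooth' _) (contDiff_rotF z' h.smooth' _)
    (fun q => rotF_periodic z' h.per' _ q)
    (rotF_closed z' h.smooth' h.unit' c' (by linarith) hz') (fun t => (hQ0 (t, 0) (by simp)).2)
  have hst := stokes_sph g g' hg (hg'.of_le (by norm_num)) hgper hgper'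
    (fun t => by rw [hgQ]; exact (hQ0 (t, 0) (by simp)).1)
    (fun t => by rw [hgQ]; exact (hQ0 (t, Real.pi) (by simp)).1)
  simp only [hgP, hgQ, hgP', hgQ'] at hst
  have hF : ∀ q : ℝ × ℝ, ∃ s : ℝ, 0 < s ∧
      -(rotF z (0, 1) q * rotF z' (1, 0) q - rotF z (1, 0) q * rotF z' (0, 1) q)
        = Real.sin q.2 * s * ((1 - c' ^ 2) * rotF z (0, 1) q ^ 2
          + (1 - c ^ 2) * rotF z' (0, 1) q ^ 2) := by
    intro q
    obtain ⟨s, hs, h1, h2⟩ := hreg q
    refine ⟨s, hs, ?_⟩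
    rw [h1, h2]
    ring
  have hzero := eq_zero_of_integral
    (fun q => -(rotF z (0, 1) q * rotF z' (1, 0) q - rotF z (1, 0) q * rotF z' (0, 1) q))
    (by
      have a1 := (contDiff_rotF z h.smooth (0, 1)).continuous
      have a2 := (contDiff_rotF z h.smooth (1, 0)).continuous
      have a3 := (contDiff_rotF z' h.smooth' (0, 1)).continuous
      have a4 := (contDiff_rotF z' h.smooth' (1, 0)).continuous
      exact ((a1.mul a4).sub (a2.mul a3)).neg)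
    (by
      intro t p h0 h1
      obtain ⟨s, hs, hE⟩ := hF (t, p)
      show 0 ≤ -(rotF z (0, 1) (t, p) * rotF z' (1, 0) (t, p)
        - rotF z (1, 0) (t, p) * rotF z' (0, 1) (t, p))
      rw [hE]
      have := Real.sin_nonneg_of_nonneg_of_le_pi h0 h1
      show 0 ≤ Real.sin p * s * _
      positivity)
    (by
      intro q
      simp only [rotF_periodic z h.per, rotF_periodic z' h.per'])
    (by
      simp only [intervalIntegral.integral_neg]
      rw [hst, neg_zero])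
    q.1 q.2 hp0.le hp1.le
  obtain ⟨s, hs, hE⟩ := hF q
  have hsin := Real.sin_pos_of_pos_of_lt_pi hp0 hp1
  have hz0 : Real.sin q.2 * s * ((1 - c' ^ 2) * rotF z (0, 1) q ^ 2
          + (1 - c ^ 2) * rotF z' (0, 1) q ^ 2) = 0 := by
    rw [← hE]; exact hzero
  have hss : 0 < Real.sin q.2 * s := mul_pos hsin hs
  have hsum : (1 - c' ^ 2) * rotF z (0, 1) q ^ 2 + (1 - c ^ 2) * rotF z' (0, 1) q ^ 2 = 0 := by
    rcases mul_eq_zero.mp hz0 with h0 | h0
    · exact absurd h0 hss.ne'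
    · exact h0
  have e1 : 0 ≤ (1 - c' ^ 2) * rotF z (0, 1) q ^ 2 := by positivity
  have e2 : 0 ≤ (1 - c ^ 2) * rotF z' (0, 1) q ^ 2 := by positivity
  have f1 : rotF z (0, 1) q = 0 := by
    have : (1 - c' ^ 2) * rotF z (0, 1) q ^ 2 = 0 := by linarith
    rcases mul_eq_zero.mp this with h0 | h0
    · exact absurd h0 hcsq'.ne'
    · exact pow_eq_zero_iff (two_ne_zero) |>.mp h0
  have f2 : rotF z' (0, 1) q = 0 := by
    have : (1 - c ^ 2) * rotF z' (0, 1) q ^ 2 = 0 := by linarith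
    rcases mul_eq_zero.mp this with h0 | h0
    · exact absurd h0 hcsq.ne'
    · exact pow_eq_zero_iff (two_ne_zero) |>.mp h0
  obtain ⟨s', hs', g1, g2⟩ := hreg q
  refine ⟨f1, f2, ?_, ?_⟩
  · rw [g1, f2, mul_zero]
  · rw [g2, f1, mul_zero]

theorem IsSol.vec_zero (h : IsSol z z') (c : ℝ) (hc : |c| < 1 / 2)
    (hz : ∀ q, z q 2 = c) (q v : ℝ × ℝ) (hr : rotF z v q = 0) : fderiv ℝ z q v = 0 := by
  have h2 : (fderiv ℝ z q v) 2 = 0 := by
    rw [← (h.fderiv_height q v).1]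
    have e : (fun x => z x 2) = fun _ => c := funext hz
    rw [e]
    simp
  have ho := (h.orth q v).1
  rw [inner_r3, h2] at ho
  have hu := h.unit q
  rw [inner_r3, hz q] at hu
  unfold rotF at hr
  have hc2 : c * c < 1 := by
    have := abs_lt.1 hc
    nlinarith [this.1, this.2]
  have hpos : 0 < z q 0 * z q 0 + z q 1 * z q 1 := by linarith
  have h0 : (z q 0 * z q 0 + z q 1 * z q 1) * (fderiv ℝ z q v) 0 = 0 := by
    linear_combination (z q 0) * ho - (z q 1) * hr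
  have h1 : (z q 0 * z q 0 + z q 1 * z q 1) * (fderiv ℝ z q v) 1 = 0 := by
    linear_combination (z q 1) * ho + (z q 0) * hr
  have w0 := (mul_eq_zero.1 h0).resolve_left hpos.ne'
  have w1 := (mul_eq_zero.1 h1).resolve_left hpos.ne'
  ext i
  fin_cases i
  · exact w0
  · exact w1
  · exact h2

theorem IsSol.vec_zero' (h : IsSol z z') (c : ℝ) (hc : |c| < 1 / 2)
    (hz : ∀ q, z' q 2 = c) (q v : ℝ × ℝ) (hr : rotF z' v q = 0) : fderiv ℝ z' q v = 0 := by
  have h2 : (fderiv ℝ z' q v) 2 = 0 := by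
    rw [← (h.fderiv_height q v).2]
    have e : (fun x => z' x 2) = fun _ => c := funext hz
    rw [e]
    simp
  have ho := (h.orth q v).2
  rw [inner_r3, h2] at ho
  have hu := h.unit' q
  rw [inner_r3, hz q] at hu
  unfold rotF at hr
  have hc2 : c * c < 1 := by
    have := abs_lt.1 hc
    nlinarith [this.1, this.2]
  have hpos : 0 < z' q 0 * z' q 0 + z' q 1 * z' q 1 := by linarith
  have h0 : (z' q 0 * z' q 0 + z' q 1 * z' q 1) * (fderiv ℝ z' q v) 0 = 0 := by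
    linear_combination (z' q 0) * ho - (z' q 1) * hr
  have h1 : (z' q 0 * z' q 0 + z' q 1 * z' q 1) * (fderiv ℝ z' q v) 1 = 0 := by
    linear_combination (z' q 1) * ho + (z' q 0) * hr
  have w0 := (mul_eq_zero.1 h0).resolve_left hpos.ne'
  have w1 := (mul_eq_zero.1 h1).resolve_left hpos.ne'
  ext i
  fin_cases i
  · exact w0
  · exact w1
  · exact h2

theorem clm_prod_zero {F : Type*} [NormedAddCommGroup F] [NormedSpace ℝ F] (L : ℝ × ℝ →L[ℝ] F)
    (h1 : L (1, 0) = 0) (h2 : L (0, 1) = 0) : L = 0 := by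
  ext v
  · simpa using h1
  · simpa using h2

theorem IsSol.fderiv_zero (h : IsSol z z') (c c' : ℝ) (hc : |c| < 1 / 2) (hc' : |c'| < 1 / 2)
    (hz : ∀ q, z q 2 = c) (hz' : ∀ q, z' q 2 = c') (q : ℝ × ℝ) (hp0 : 0 < q.2)
    (hp1 : q.2 < Real.pi) : fderiv ℝ z q = 0 ∧ fderiv ℝ z' q = 0 := by
  obtain ⟨r1, r2, r3, r4⟩ := h.rotF_zero c c' hc hc' hz hz' q hp0 hp1
  exact ⟨clm_prod_zero _ (h.vec_zero c hc hz q _ r3) (h.vec_zero c hc hz q _ r1),
    clm_prod_zero _ (h.vec_zero' c' hc' hz' q _ r4) (h.vec_zero' c' hc' hz' q _ r2)⟩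

/-- The analytic heart: a solution which meets the region is constant. -/
theorem IsSol.const (h : IsSol z z') (q₀ : ℝ × ℝ) (hq : |z q₀ 2| < 1 / 2)
    (hq' : |z' q₀ 2| < 1 / 2) (q : ℝ × ℝ) : z q = z q₀ ∧ z' q = z' q₀ := by
  have hz : ∀ q, z q 2 = z q₀ 2 := fun q => (h.heights_const q₀ hq hq' q).1
  have hz' : ∀ q, z' q 2 = z' q₀ 2 := fun q => (h.heights_const q₀ hq hq' q).2
  have hfd := h.fderiv_zero _ _ hq hq' hz hz'
  let S : Set (ℝ × ℝ) := Prod.snd ⁻¹' Ioo 0 Real.pi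
  have hSo : IsOpen S := isOpen_Ioo.preimage continuous_snd
  have hSc : IsPreconnected S :=
    ((convex_Ioo (0 : ℝ) Real.pi).linear_preimage (LinearMap.snd ℝ ℝ ℝ)).isPreconnected
  have hcl : closure S = Prod.snd ⁻¹' Icc 0 Real.pi := by
    rw [← closure_Ioo Real.pi_pos.ne]
    exact (isOpenMap_snd.preimage_closure_eq_closure_preimage continuous_snd _).symm
  let q1 : ℝ × ℝ := (0, Real.pi / 2)
  have hq1 : q1 ∈ S := ⟨by have := Real.pi_pos; simp only [q1]; linarith,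
    by have := Real.pi_pos; simp only [q1]; linarith⟩
  have gen : ∀ (g : ℝ × ℝ → R3), ContDiff ℝ ∞ g →
      (∀ q : ℝ × ℝ, 0 < q.2 → q.2 < Real.pi → fderiv ℝ g q = 0) →
      ∀ q : ℝ × ℝ, 0 ≤ q.2 → q.2 ≤ Real.pi → g q = g q1 := by
    intro g hg hg0 q hqa hqb
    have hS : ∀ x ∈ S, g x = g q1 := fun x hx =>
      hSo.is_const_of_fderiv_eq_zero hSc (hg.differentiable (by simp)).differentiableOn
        (fun y hy => hg0 y hy.1 hy.2) hx hq1
    have hsub : closure S ⊆ {x | g x = g q1} :=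
      closure_minimal hS (isClosed_eq hg.continuous continuous_const)
    exact hsub (by rw [hcl]; exact ⟨hqa, hqb⟩)
  have key : ∀ q, z q = z q1 ∧ z' q = z' q1 := by
    intro q
    obtain ⟨q', ha, hb, e, e'⟩ := h.cover q
    rw [e, e']
    exact ⟨gen z h.smooth (fun q h0 h1 => (hfd q h0 h1).1) q' ha hb,
      gen z' h.smooth' (fun q h0 h1 => (hfd q h0 h1).2) q' ha hb⟩
  exact ⟨(key q).1.trans (key q₀).1.symm, (key q).2.trans (key q₀).2.symm⟩

end Pool.Agent.Helper206.Rat
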