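import Mathlib
import Pool.Agent.Helper206.Rat.Calc

/-!
# Geometry of the example
-/

open scoped Manifold ContDiff Topology
open Metric Set Bundle
open Pool.Agent.Helper206.Cover

noncomputable section

namespace Pool.Agent.Helper206.Rat

attribute [local instance] factR3

theorem extChartAt_X4_symm (x₀ : X4) (y : E4) :
    (extChartAt I4 x₀).symm y
      = (((extChartAt (𝓡 2) x₀.1).symm y.1, (extChartAt (𝓡 2) x₀.2).symm y.2) : X4) := by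
  rw [extChartAt_prod]
  rfl

theorem mfderiv_extChartAt_X4_symm (x₀ : X4) (y v : E4) :
    (mfderiv 𝓘(ℝ, E4) I4 (extChartAt I4 x₀).symm y v : E4)
      = ((mfderiv 𝓘(ℝ, E2) (𝓡 2) (extChartAt (𝓡 2) x₀.1).symm y.1 v.1,
        mfderiv 𝓘(ℝ, E2) (𝓡 2) (extChartAt (𝓡 2) x₀.2).symm y.2 v.2) : E4) := by
  have hfun : ((extChartAt I4 x₀).symm : E4 → X4) = fun y : E4 =>
      (((extChartAt (𝓡 2) x₀.1).symm y.1, (extChartAt (𝓡 2) x₀.2).symm y.2) : X4) := by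
    funext y
    exact extChartAt_X4_symm x₀ y
  have h1 : HasMFDerivAt 𝓘(ℝ, E2) (𝓡 2) ((extChartAt (𝓡 2) x₀.1).symm : E2 → P1) y.1
      (mfderiv 𝓘(ℝ, E2) (𝓡 2) (extChartAt (𝓡 2) x₀.1).symm y.1) :=
    ((xchart_symm_contMDiff x₀.1).mdifferentiable (by simp) y.1).hasMFDerivAt
  have h2 : HasMFDerivAt 𝓘(ℝ, E2) (𝓡 2) ((extChartAt (𝓡 2) x₀.2).symm : E2 → P1) y.2
      (mfderiv 𝓘(ℝ, E2) (𝓡 2) (extChartAt (𝓡 2) x₀.2).symm y.2) :=
    ((xchart_symm_contMDiff x₀.2).mdifferentiable (by simp) y.2).hasMFDerivAt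
  have hfst : HasMFDerivAt 𝓘(ℝ, E4) 𝓘(ℝ, E2) (fun y : E4 => y.1) y
      (ContinuousLinearMap.fst ℝ E2 E2) := (ContinuousLinearMap.fst ℝ E2 E2).hasMFDerivAt
  have hsnd : HasMFDerivAt 𝓘(ℝ, E4) 𝓘(ℝ, E2) (fun y : E4 => y.2) y
      (ContinuousLinearMap.snd ℝ E2 E2) := (ContinuousLinearMap.snd ℝ E2 E2).hasMFDerivAt
  have h3 := HasMFDerivAt.comp y h1 hfst
  have h4 := HasMFDerivAt.comp y h2 hsnd
  have h5 := h3.prodMk h4
  rw [hfun]
  erw [h5.mfderiv]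
  rfl

theorem mvfderiv_extChartAt_X4 (x₀ x : X4) (hx : x ∈ (extChartAt I4 x₀).source) (v : E4) :
    mvfderiv I4 (extChartAt I4 x₀) x v
      = ((mvfderiv (𝓡 2) (extChartAt (𝓡 2) x₀.1) x.1 v.1,
        mvfderiv (𝓡 2) (extChartAt (𝓡 2) x₀.2) x.2 v.2) : E4) := by
  have hfun : ((extChartAt I4 x₀) : X4 → E4) = fun x : X4 =>
      (((extChartAt (𝓡 2) x₀.1) x.1, (extChartAt (𝓡 2) x₀.2) x.2) : E4) := by
    funext x
    rw [extChartAt_prod]
    rfl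
  rw [extChartAt_source] at hx
  have hx1 : x.1 ∈ (chartAt (EuclideanSpace ℝ (Fin 2)) x₀.1).source := hx.1
  have hx2 : x.2 ∈ (chartAt (EuclideanSpace ℝ (Fin 2)) x₀.2).source := hx.2
  have h1 : HasMFDerivAt (𝓡 2) 𝓘(ℝ, E2) (extChartAt (𝓡 2) x₀.1) x.1
      (mfderiv (𝓡 2) 𝓘(ℝ, E2) (extChartAt (𝓡 2) x₀.1) x.1) :=
    (mdifferentiableAt_extChartAt (I := 𝓡 2) hx1).hasMFDerivAt
  have h2 : HasMFDerivAt (𝓡 2) 𝓘(ℝ, E2) (extChartAt (𝓡 2) x₀.2) x.2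
      (mfderiv (𝓡 2) 𝓘(ℝ, E2) (extChartAt (𝓡 2) x₀.2) x.2) :=
    (mdifferentiableAt_extChartAt (I := 𝓡 2) hx2).hasMFDerivAt
  have h3 := HasMFDerivAt.comp x h1 (hasMFDerivAt_fst (I := 𝓡 2) (I' := 𝓡 2) x)
  have h4 := HasMFDerivAt.comp x h2 (hasMFDerivAt_snd (I := 𝓡 2) (I' := 𝓡 2) x)
  have h5 : HasMFDerivAt I4 𝓘(ℝ, E4) (fun x : X4 =>
      (((extChartAt (𝓡 2) x₀.1) x.1, (extChartAt (𝓡 2) x₀.2) x.2) : E4)) x _ :=
    ⟨h3.1.prodMk h4.1, h3.2.prodMk h4.2⟩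
  unfold mvfderiv
  rw [hfun]
  erw [h5.mfderiv]
  rfl

theorem inc4_mfderiv_symm (x₀ : X4) (y v : E4) :
    inc4 ((extChartAt I4 x₀).symm y)
      (mfderiv 𝓘(ℝ, E4) I4 (extChartAt I4 x₀).symm y v : E4)
      = ((fderiv ℝ (Zc x₀.1) y.1 v.1, fderiv ℝ (Zc x₀.2) y.2 v.2) : W6) := by
  rw [mfderiv_extChartAt_X4_symm]
  have key : ∀ (x : X4), x = ((extChartAt (𝓡 2) x₀.1).symm y.1, (extChartAt (𝓡 2) x₀.2).symm y.2) →
      inc4 x ((mfderiv 𝓘(ℝ, E2) (𝓡 2) (extChartAt (𝓡 2) x₀.1).symm y.1 v.1,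
        mfderiv 𝓘(ℝ, E2) (𝓡 2) (extChartAt (𝓡 2) x₀.2).symm y.2 v.2) : E4)
        = ((fderiv ℝ (Zc x₀.1) y.1 v.1, fderiv ℝ (Zc x₀.2) y.2 v.2) : W6) := by
    rintro x rfl
    exact Prod.ext (dInc_mfderiv_symm x₀.1 y.1 v.1) (dInc_mfderiv_symm x₀.2 y.2 v.2)
  exact key _ (extChartAt_X4_symm x₀ y)

theorem formInChart_X4 (x₀ : X4) (y : E4) :
    formInChart form4 x₀ y = coordForm4 (Zc x₀.1) (Zc x₀.2) y := by
  refine ContinuousLinearMap.ext fun v => ContinuousLinearMap.ext fun v' => ?_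
  have h1 := inc4_mfderiv_symm x₀ y v
  have h2 := inc4_mfderiv_symm x₀ y v'
  have hx : (((extChartAt I4 x₀).symm y).1 : R3) = Zc x₀.1 y.1 := by
    rw [extChartAt_X4_symm]; rfl
  have hx' : (((extChartAt I4 x₀).symm y).2 : R3) = Zc x₀.2 y.2 := by
    rw [extChartAt_X4_symm]; rfl
  show formW6 (((extChartAt I4 x₀).symm y).1 : R3) (((extChartAt I4 x₀).symm y).2 : R3)
    (inc4 ((extChartAt I4 x₀).symm y) (mfderiv 𝓘(ℝ, E4) I4 (extChartAt I4 x₀).symm y v : E4))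
    (inc4 ((extChartAt I4 x₀).symm y) (mfderiv 𝓘(ℝ, E4) I4 (extChartAt I4 x₀).symm y v' : E4)) =
    formW6 (Zc x₀.1 y.1) (Zc x₀.2 y.2)
      ((fderiv ℝ (Zc x₀.1) y.1 v.1, fderiv ℝ (Zc x₀.2) y.2 v.2) : W6)
      ((fderiv ℝ (Zc x₀.1) y.1 v'.1, fderiv ℝ (Zc x₀.2) y.2 v'.2) : W6)
  rw [h1, h2, hx, hx']

theorem endoInChart_X4 (t : ℝ) (x₀ : X4) (y : E4) (hy : y ∈ (extChartAt I4 x₀).target) :
    endoInChart (J4 t) x₀ y = coordEndo4 (Zc x₀.1) (Zc x₀.2) (Pc x₀.1) (Pc x₀.2) t y := by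
  refine ContinuousLinearMap.ext fun v => ?_
  have hx : (extChartAt I4 x₀).symm y ∈ (extChartAt I4 x₀).source :=
    (extChartAt I4 x₀).map_target hy
  have h1 := inc4_mfderiv_symm x₀ y v
  have h2 := mvfderiv_extChartAt_X4 x₀ ((extChartAt I4 x₀).symm y) hx
    (J4 t ((extChartAt I4 x₀).symm y) (mfderiv 𝓘(ℝ, E4) I4 (extChartAt I4 x₀).symm y v : E4))
  show mvfderiv I4 (extChartAt I4 x₀) ((extChartAt I4 x₀).symm y)
    (J4 t ((extChartAt I4 x₀).symm y) (mfderiv 𝓘(ℝ, E4) I4 (extChartAt I4 x₀).symm y v : E4)) = _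
  refine h2.trans ?_
  have h4 : (J4 t ((extChartAt I4 x₀).symm y)
      (mfderiv 𝓘(ℝ, E4) I4 (extChartAt I4 x₀).symm y v : E4) : E4)
      = (proj4 ((extChartAt I4 x₀).symm y)) (Jt t (((extChartAt I4 x₀).symm y).1 : R3)
        (((extChartAt I4 x₀).symm y).2 : R3) (inc4 ((extChartAt I4 x₀).symm y)
          (mfderiv 𝓘(ℝ, E4) I4 (extChartAt I4 x₀).symm y v : E4))) := rfl
  rw [h4, h1]
  have key : ∀ (x : X4), x = ((extChartAt (𝓡 2) x₀.1).symm y.1, (extChartAt (𝓡 2) x₀.2).symm y.2) →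
      ((mvfderiv (𝓡 2) (extChartAt (𝓡 2) x₀.1) x.1
        (proj4 x (Jt t x.1 x.2 ((fderiv ℝ (Zc x₀.1) y.1 v.1, fderiv ℝ (Zc x₀.2) y.2 v.2) : W6))).1,
        mvfderiv (𝓡 2) (extChartAt (𝓡 2) x₀.2) x.2
        (proj4 x (Jt t x.1 x.2 ((fderiv ℝ (Zc x₀.1) y.1 v.1,
          fderiv ℝ (Zc x₀.2) y.2 v.2) : W6))).2) : E4) =
        coordEndo4 (Zc x₀.1) (Zc x₀.2) (Pc x₀.1) (Pc x₀.2) t y v := by
    rintro x rfl
    rfl
  exact key _ (extChartAt_X4_symm x₀ y)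

theorem inc4_injective (x : X4) : Function.Injective (inc4 x) := by
  intro v w h
  have h1 : dInc x.1 v.1 = dInc x.1 w.1 := congrArg Prod.fst h
  have h2 : dInc x.2 v.2 = dInc x.2 w.2 := congrArg Prod.snd h
  exact Prod.ext (dInc_injective x.1 h1) (dInc_injective x.2 h2)

theorem inc4_orth (x : X4) (v : E4) : inner ℝ (x.1 : R3) (inc4 x v).1 = (0 : ℝ) ∧
    inner ℝ (x.2 : R3) (inc4 x v).2 = (0 : ℝ) :=
  ⟨inner_dInc x.1 v.1, inner_dInc x.2 v.2⟩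

theorem inc4_J4 (t : ℝ) (x : X4) (v : E4) :
    inc4 x (J4 t x v : E4) = Jt t x.1 x.2 (inc4 x v) := by
  obtain ⟨h1, h2⟩ := Jamb_orth (coefC t ((x.1 : R3) 2) ((x.2 : R3) 2))
    (coefS t ((x.1 : R3) 2) ((x.2 : R3) 2)) x.1 x.2 (inner_self_P1 x.1) (inner_self_P1 x.2)
    (inc4 x v)
  have h3 : inc4 x (J4 t x v : E4) =
      (dInc x.1 (tanProj x.1 (Jt t x.1 x.2 (inc4 x v)).1),
        dInc x.2 (tanProj x.2 (Jt t x.1 x.2 (inc4 x v)).2)) := rfl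
  rw [h3, dInc_tanProj, dInc_tanProj]
  have h4 : inner ℝ (x.1 : R3) (Jt t x.1 x.2 (inc4 x v)).1 = (0 : ℝ) := h1
  have h5 : inner ℝ (x.2 : R3) (Jt t x.1 x.2 (inc4 x v)).2 = (0 : ℝ) := h2
  rw [h4, h5, zero_smul, zero_smul, sub_zero, sub_zero]

/-- the symplectic form -/
def Om4 : SymplecticForm I4 X4 where
  form := form4
  alt := by
    intro x v
    exact formW6_self _ _ _
  smooth := by
    intro x₀
    have h : formInChart form4 x₀ = coordForm4 (Zc x₀.1) (Zc x₀.2) :=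
      funext fun y => formInChart_X4 x₀ y
    rw [h]
    exact (contDiff_coordForm4 _ _ (contDiff_Zc _) (contDiff_Zc _)).contDiffOn
  closed := by
    intro x₀ y _ a b c
    have h : formInChart form4 x₀ = coordForm4 (Zc x₀.1) (Zc x₀.2) :=
      funext fun y => formInChart_X4 x₀ y
    rw [h]
    exact closed_coordForm4 _ _ (contDiff_Zc _) (contDiff_Zc _) (norm_Zc _) (norm_Zc _) y a b c
  nondegenerate := by
    intro x v hv
    by_contra hne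
    have h1 : inc4 x (v : E4) ≠ 0 := by
      intro h
      apply hne
      exact inc4_injective x (h.trans (inc4 x).map_zero.symm)
    have h2 := formW6_pos x.1 x.2 (inner_self_P1 _) (inner_self_P1 _) (inc4 x (v : E4))
      (inc4_orth x v).1 (inc4_orth x v).2 h1
    have h3 := hv (J4 0 x v)
    have h4 : form4 x v (J4 0 x v) =
        formW6 x.1 x.2 (inc4 x (v : E4)) (Jt 0 x.1 x.2 (inc4 x (v : E4))) := by
      rw [← inc4_J4]
      rfl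
    rw [h4] at h3
    exact h2.ne' h3

theorem contDiff_Pc (z₀ : P1) : ContDiff ℝ ∞ (Pc z₀) :=
  contDiff_pinv (Zc z₀) (contDiff_Zc z₀) (fderiv_Zc_injective z₀) (Pc z₀) (fderiv_Zc_Pc z₀)

theorem contDiff_K4aux (x₀ : X4) : ContDiff ℝ ∞ (fun p : ℝ × E4 =>
    coordEndo4 (Zc x₀.1) (Zc x₀.2) (Pc x₀.1) (Pc x₀.2) p.1 p.2) :=
  contDiff_coordEndo4 (Zc x₀.1) (Zc x₀.2) (contDiff_Zc x₀.1) (contDiff_Zc x₀.2)
    (Pc x₀.1) (Pc x₀.2) (contDiff_Pc x₀.1) (contDiff_Pc x₀.2)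

theorem Jt_Jt (t : ℝ) (x : X4) (v : E4) :
    Jt t x.1 x.2 (Jt t x.1 x.2 (inc4 x v)) = -(inc4 x v) := by
  unfold Jt
  exact Jamb_Jamb _ _ _ _ (inner_self_P1 x.1) (inner_self_P1 x.2)
    (coef_sq t _ _ (sq_le_one_of_unit _ (inner_self_P1 x.1))
      (sq_le_one_of_unit _ (inner_self_P1 x.2))) (inc4 x v) (inc4_orth x v).1 (inc4_orth x v).2

theorem J4_sq (t : ℝ) (x : X4) (v : E4) :
    (J4 t x (J4 t x v : E4) : E4) = -v := by
  apply inc4_injective x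
  rw [inc4_J4, inc4_J4, Jt_Jt, map_neg]

theorem form4_apply (x : X4) (v w : E4) :
    (form4 x v w : ℝ) = formW6 x.1 x.2 (inc4 x v) (inc4 x w) := rfl

theorem comp_aux {F : Type*} [NormedAddCommGroup F] [NormedSpace ℝ F] (g : ℝ → E4 → F)
    (h : ContDiff ℝ ∞ (fun p : ℝ × E4 => g p.1 p.2)) (t : ℝ) : ContDiff ℝ ∞ (g t) := by
  have h1 : ContDiff ℝ ∞ (fun y : E4 => ((t, y) : ℝ × E4)) :=
    (contDiff_const (c := t)).prodMk contDiff_id
  exact ContDiff.comp (g := fun p : ℝ × E4 => g p.1 p.2) (f := fun y : E4 => ((t, y) : ℝ × E4)) h h1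

theorem contDiff_K4aux2 (t : ℝ) (x₀ : X4) : ContDiff ℝ ∞
    (coordEndo4 (Zc x₀.1) (Zc x₀.2) (Pc x₀.1) (Pc x₀.2) t) :=
  comp_aux (coordEndo4 (Zc x₀.1) (Zc x₀.2) (Pc x₀.1) (Pc x₀.2)) (contDiff_K4aux x₀) t

theorem K4_smooth (t : ℝ) (x₀ : X4) :
    ContDiffOn ℝ ∞ (endoInChart (J4 t) x₀) (extChartAt I4 x₀).target := by
  have h3 : ContDiffOn ℝ ∞
    (coordEndo4 (Zc x₀.1) (Zc x₀.2) (Pc x₀.1) (Pc x₀.2) t) (extChartAt I4 x₀).target :=
    (contDiff_K4aux2 t x₀).contDiffOn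
  refine ContDiffOn.congr h3 ?_
  intro y hy
  exact endoInChart_X4 t x₀ y hy

/-- the almost complex structures -/
def K4 (t : ℝ) : AlmostComplex I4 X4 where
  J := J4 t
  smooth := by
    intro x₀
    exact K4_smooth t x₀
  sq := by
    intro x v
    exact J4_sq t x v

theorem isCompatible_K4 : IsCompatible Om4 (K4 0) := by
  constructor
  · intro x v w
    have h := formW6_compat x.1 x.2 (inner_self_P1 x.1) (inner_self_P1 x.2) (inc4 x v) (inc4 x w)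
      (inc4_orth x v).1 (inc4_orth x v).2 (inc4_orth x w).1 (inc4_orth x w).2
    rw [← inc4_J4, ← inc4_J4] at h
    exact h
  · intro x v hv
    have hne : inc4 x v ≠ 0 := by
      intro h0
      apply hv
      apply inc4_injective x
      rw [h0]
      exact (map_zero (inc4 x)).symm
    have h := formW6_pos x.1 x.2 (inner_self_P1 x.1) (inner_self_P1 x.2) (inc4 x v)
      (inc4_orth x v).1 (inc4_orth x v).2 hne
    rw [← inc4_J4] at h
    exact h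

theorem areHomotopic_K4 : AreHomotopic (K4 0) (K4 1) := by
  refine ⟨K4, rfl, rfl, ?_⟩
  intro x₀
  have h3 : ContDiffOn ℝ ∞ (fun p : ℝ × E4 =>
    coordEndo4 (Zc x₀.1) (Zc x₀.2) (Pc x₀.1) (Pc x₀.2) p.1 p.2)
      (univ ×ˢ (extChartAt I4 x₀).target) :=
    (contDiff_K4aux x₀).contDiffOn
  refine ContDiffOn.congr h3 ?_
  intro p hp
  exact endoInChart_X4 p.1 x₀ p.2 hp.2

theorem hl_cross_zero (z : R3) : cross z 0 = 0 := by
  have := (crossL z).map_zero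
  exact this

theorem hl_Jt0 (z z' : R3) (v : W6) : Jt 0 z z' v = (cross z v.1, cross z' v.2) := by
  unfold Jt
  rw [(coef_zero _ _).1, (coef_zero _ _).2, Jamb_apply, one_smul, zero_smul, add_zero]

theorem hl_inc4 (x : X4) (v : E4) : inc4 x v = (dInc x.1 v.1, dInc x.2 v.2) := rfl

theorem hl_mfderiv_left (p z : P1) (w : TangentSpace (𝓡 2) z) :
    (mfderiv (𝓡 2) I4 (fun z : P1 => ((z, p) : X4)) z w : E4) = ((w, 0) : E4) := by
  have h1 : MDifferentiableAt (𝓡 2) (𝓡 2) (fun z : P1 => z) z := mdifferentiableAt_id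
  have h2 : MDifferentiableAt (𝓡 2) (𝓡 2) (fun _ : P1 => p) z := mdifferentiableAt_const
  have h3 := mfderiv_prodMk h1 h2
  have h4 : mfderiv (𝓡 2) (𝓡 2) (fun z : P1 => z) z = ContinuousLinearMap.id ℝ _ := mfderiv_id
  have h5 : mfderiv (𝓡 2) (𝓡 2) (fun _ : P1 => p) z = 0 := mfderiv_const
  rw [h4, h5] at h3
  have h6 := congrArg (fun L : E2 →L[ℝ] E4 => L w) h3
  exact h6

theorem hl_mfderiv_right (p z : P1) (w : TangentSpace (𝓡 2) z) :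
    (mfderiv (𝓡 2) I4 (fun z : P1 => ((p, z) : X4)) z w : E4) = ((0, w) : E4) := by
  have h1 : MDifferentiableAt (𝓡 2) (𝓡 2) (fun z : P1 => z) z := mdifferentiableAt_id
  have h2 : MDifferentiableAt (𝓡 2) (𝓡 2) (fun _ : P1 => p) z := mdifferentiableAt_const
  have h3 := mfderiv_prodMk h2 h1
  have h4 : mfderiv (𝓡 2) (𝓡 2) (fun z : P1 => z) z = ContinuousLinearMap.id ℝ _ := mfderiv_id
  have h5 : mfderiv (𝓡 2) (𝓡 2) (fun _ : P1 => p) z = 0 := mfderiv_const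
  rw [h4, h5] at h3
  have h6 := congrArg (fun L : E2 →L[ℝ] E4 => L w) h3
  exact h6

theorem isHolomorphic_left (p : P1) : IsHolomorphic (I' := 𝓡 2) jP1 (K4 0) (fun z : P1 => (z, p)) := by
  refine ⟨contMDiff_id.prodMk contMDiff_const, fun z w => ?_⟩
  have e1 := hl_mfderiv_left p z (jP1 z w)
  have e2 := hl_mfderiv_left p z w
  apply inc4_injective (z, p)
  have e3 := inc4_J4 0 (z, p) (mfderiv (𝓡 2) I4 (fun z : P1 => ((z, p) : X4)) z w : E4)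
  refine Eq.trans ?_ e3.symm
  refine (congrArg (inc4 (z, p)) e1).trans ?_
  refine Eq.trans ?_ (congrArg (fun v : E4 => Jt 0 z p (inc4 (z, p) v)) e2).symm
  rw [hl_Jt0, hl_inc4, hl_inc4]
  have e4 : dInc p (0 : E2) = 0 := (dInc p).map_zero
  show ((dInc z (jP1 z w), dInc p (0 : E2)) : W6) = (cross z (dInc z w), cross p (dInc p (0 : E2)))
  rw [e4, hl_cross_zero, dInc_jP1]

theorem isHolomorphic_right (p : P1) :
    IsHolomorphic (I' := 𝓡 2) jP1 (K4 0) (fun z : P1 => (p, z)) := by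
  refine ⟨contMDiff_const.prodMk contMDiff_id, fun z w => ?_⟩
  have e1 := hl_mfderiv_right p z (jP1 z w)
  have e2 := hl_mfderiv_right p z w
  apply inc4_injective (p, z)
  have e3 := inc4_J4 0 (p, z) (mfderiv (𝓡 2) I4 (fun z : P1 => ((p, z) : X4)) z w : E4)
  refine Eq.trans ?_ e3.symm
  refine (congrArg (inc4 (p, z)) e1).trans ?_
  refine Eq.trans ?_ (congrArg (fun v : E4 => Jt 0 p z (inc4 (p, z) v)) e2).symm
  rw [hl_Jt0, hl_inc4, hl_inc4]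
  have e4 : dInc p (0 : E2) = 0 := (dInc p).map_zero
  show ((dInc p (0 : E2), dInc z (jP1 z w)) : W6) = (cross p (dInc p (0 : E2)), cross z (dInc z w))
  rw [e4, hl_cross_zero, dInc_jP1]

theorem isTree_top_two : (⊤ : SimpleGraph (Fin 2)).IsTree := by
  classical
  rw [SimpleGraph.isTree_iff_connected_and_card]
  refine ⟨SimpleGraph.connected_top, ?_⟩
  have h := SimpleGraph.card_edgeFinset_top_eq_card_choose_two (V := Fin 2)
  rw [← SimpleGraph.coe_edgeFinset, Nat.card_coe_set_eq, Set.ncard_coe_finset, h]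
  simp

theorem exists_rationalCurve (x y : X4) :
    ∃ C : RationalCurve (I' := 𝓡 2) jP1 (K4 0), x ∈ C.image ∧ y ∈ C.image := by
  classical
  obtain ⟨u, hu0, hu1⟩ : ∃ u : Fin 2 → P1 → X4, u 0 = (fun z : P1 => (z, x.2)) ∧
      u 1 = (fun z : P1 => (y.1, z)) := ⟨![fun z : P1 => (z, x.2), fun z : P1 => (y.1, z)], rfl, rfl⟩
  obtain ⟨nd, hn01, hn10⟩ : ∃ nd : Fin 2 → Fin 2 → P1, nd 0 1 = y.1 ∧ nd 1 0 = x.2 :=
    ⟨fun a _ => if a = 0 then y.1 else x.2, by simp, by simp⟩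
  refine ⟨{ n := 2, graph := ⊤, isTree := isTree_top_two, node := nd, node_ne := ?_, u := u,
            holomorphic := ?_, node_eq := ?_, nonconstant := ?_ }, ?_, ?_⟩
  · intro a b c hab hac hbc
    exfalso
    rw [SimpleGraph.top_adj] at hab hac
    omega
  · intro a
    fin_cases a
    · show IsHolomorphic (I' := 𝓡 2) jP1 (K4 0) (u 0)
      rw [hu0]
      exact isHolomorphic_left _
    · show IsHolomorphic (I' := 𝓡 2) jP1 (K4 0) (u 1)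
      rw [hu1]
      exact isHolomorphic_right _
  · intro a b hab
    rw [SimpleGraph.top_adj] at hab
    have hc : (a = 0 ∧ b = 1) ∨ (a = 1 ∧ b = 0) := by omega
    rcases hc with ⟨rfl, rfl⟩ | ⟨rfl, rfl⟩
    · rw [hn01, hn10, hu0, hu1]
    · rw [hn01, hn10, hu0, hu1]
  · refine ⟨0, x.1, -x.1, ?_⟩
    rw [hu0]
    intro h
    have h1 : (x.1 : P1) = -x.1 := congrArg Prod.fst h
    have h2 := inner_self_P1 x.1
    have h3 : ((x.1 : P1) : R3) = -((x.1 : P1) : R3) := by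
      have := congrArg (fun z : P1 => (z : R3)) h1
      simpa using this
    have h4 : ((x.1 : P1) : R3) = 0 := by
      have h5 : (2 : ℝ) • ((x.1 : P1) : R3) = 0 := by
        rw [two_smul]
        nth_rewrite 2 [h3]
        simp
      exact (smul_eq_zero.1 h5).resolve_left two_ne_zero
    rw [h4, inner_zero_left] at h2
    exact zero_ne_one h2
  · refine Set.mem_iUnion.2 ⟨(0 : Fin 2), x.1, ?_⟩
    show u 0 x.1 = x
    rw [hu0]
  · refine Set.mem_iUnion.2 ⟨(1 : Fin 2), y.2, ?_⟩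
    show u 1 y.2 = y
    rw [hu1]

theorem sphP_surjective (ζ : P1) : ∃ q : ℝ × ℝ, 0 ≤ q.2 ∧ q.2 ≤ Real.pi ∧ sphP q = ζ := by
  have hn : ‖(ζ : R3)‖ = 1 := by
    have := ζ.2
    rwa [mem_sphere_zero_iff_norm] at this
  have hsq : (ζ : R3) 0 ^ 2 + (ζ : R3) 1 ^ 2 + (ζ : R3) 2 ^ 2 = 1 := by
    have h := EuclideanSpace.norm_sq_eq (ζ : R3)
    rw [hn, Fin.sum_univ_three] at h
    simp only [Real.norm_eq_abs, sq_abs] at h
    linarith
  set w : ℂ := ⟨(ζ : R3) 0, (ζ : R3) 1⟩ with hw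
  have h2l : -1 ≤ (ζ : R3) 2 := by nlinarith [sq_nonneg ((ζ : R3) 0), sq_nonneg ((ζ : R3) 1)]
  have h2u : (ζ : R3) 2 ≤ 1 := by nlinarith [sq_nonneg ((ζ : R3) 0), sq_nonneg ((ζ : R3) 1)]
  have hsin : Real.sin (Real.arccos ((ζ : R3) 2)) = ‖w‖ := by
    rw [Real.sin_arccos, Complex.norm_eq_sqrt_sq_add_sq]
    congr 1
    simp only [hw]
    linarith
  refine ⟨(Complex.arg w, Real.arccos ((ζ : R3) 2)), Real.arccos_nonneg _, Real.arccos_le_pi _, ?_⟩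
  apply Subtype.ext
  change sph (Complex.arg w, Real.arccos ((ζ : R3) 2)) = (ζ : R3)
  ext i
  fin_cases i
  · change Real.sin (Real.arccos ((ζ : R3) 2)) * Real.cos (Complex.arg w) = (ζ : R3) 0
    rw [hsin, Complex.norm_mul_cos_arg]
  · change Real.sin (Real.arccos ((ζ : R3) 2)) * Real.sin (Complex.arg w) = (ζ : R3) 1
    rw [hsin, Complex.norm_mul_sin_arg]
  · change Real.cos (Real.arccos ((ζ : R3) 2)) = (ζ : R3) 2
    exact Real.cos_arccos h2l h2u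

theorem hol_fderiv_coe (w : ℝ × ℝ → P1) (hw : ContMDiff 𝓘(ℝ, ℝ × ℝ) (𝓡 2) ∞ w) (q v : ℝ × ℝ) :
    fderiv ℝ (fun q => (w q : R3)) q v =
      dInc (w q) (mfderiv 𝓘(ℝ, ℝ × ℝ) (𝓡 2) w q v) := by
  have hg : MDifferentiableAt (𝓡 2) 𝓘(ℝ, R3) (fun z : P1 => (z : R3)) (w q) :=
    (contMDiff_coe_sphere (m := ∞) (w q)).mdifferentiableAt (by simp)
  have hf : MDifferentiableAt 𝓘(ℝ, ℝ × ℝ) (𝓡 2) w q := (hw q).mdifferentiableAt (by simp)
  have h := mfderiv_comp (I := 𝓘(ℝ, ℝ × ℝ)) (I' := 𝓡 2) (I'' := 𝓘(ℝ, R3)) q hg hf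
  have h2 : fderiv ℝ (fun q => (w q : R3)) q =
      mfderiv 𝓘(ℝ, ℝ × ℝ) 𝓘(ℝ, R3) ((fun z : P1 => (z : R3)) ∘ w) q := mfderiv_eq_fderiv.symm
  rw [h2, h]
  rfl

theorem hol_sphP_deriv (q v : ℝ × ℝ) :
    dInc (sphP q) (mfderiv 𝓘(ℝ, ℝ × ℝ) (𝓡 2) sphP q v) = v.1 • sph1 q + v.2 • sph2 q := by
  rw [← hol_fderiv_coe sphP contMDiff_sphP q v]
  have : (fun q => (sphP q : R3)) = sph := rfl
  rw [this, (hasFDerivAt_sph q).fderiv]
  rfl

theorem hol_sphP_rot (q : ℝ × ℝ) :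
    (mfderiv 𝓘(ℝ, ℝ × ℝ) (𝓡 2) sphP q (1, 0) : TangentSpace (𝓡 2) (sphP q)) =
      Real.sin q.2 • jP1 (sphP q) (mfderiv 𝓘(ℝ, ℝ × ℝ) (𝓡 2) sphP q (0, 1)) := by
  apply dInc_injective
  rw [map_smul, dInc_jP1, hol_sphP_deriv, hol_sphP_deriv]
  have : (sphP q : R3) = sph q := rfl
  rw [this]
  simp only [one_smul, zero_smul, add_zero, zero_add]
  exact (cross_sph q).symm

theorem hol_pair (u : P1 → X4) (hu : ContMDiff (𝓡 2) I4 ∞ u) (q v : ℝ × ℝ) :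
    ((fderiv ℝ (fun q => ((u (sphP q)).1 : R3)) q v,
      fderiv ℝ (fun q => ((u (sphP q)).2 : R3)) q v) : W6) =
      inc4 (u (sphP q)) (mfderiv (𝓡 2) I4 u (sphP q)
        (mfderiv 𝓘(ℝ, ℝ × ℝ) (𝓡 2) sphP q v) : E4) := by
  have hc : ContMDiff 𝓘(ℝ, ℝ × ℝ) I4 ∞ (fun q => u (sphP q)) := hu.comp contMDiff_sphP
  have hq : MDifferentiableAt 𝓘(ℝ, ℝ × ℝ) (𝓡 2) sphP q :=
    (contMDiff_sphP q).mdifferentiableAt (by simp)
  have huq : MDifferentiableAt (𝓡 2) I4 u (sphP q) := (hu (sphP q)).mdifferentiableAt (by simp)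
  have hcq : MDifferentiableAt 𝓘(ℝ, ℝ × ℝ) I4 (fun q => u (sphP q)) q :=
    (hc q).mdifferentiableAt (by simp)
  have e0 : mfderiv 𝓘(ℝ, ℝ × ℝ) I4 (fun q => u (sphP q)) q =
      (mfderiv (𝓡 2) I4 u (sphP q)).comp (mfderiv 𝓘(ℝ, ℝ × ℝ) (𝓡 2) sphP q) :=
    mfderiv_comp (I := 𝓘(ℝ, ℝ × ℝ)) (I' := 𝓡 2) (I'' := I4) q huq hq
  have h1 : ContMDiff 𝓘(ℝ, ℝ × ℝ) (𝓡 2) ∞ (fun q => (u (sphP q)).1) := contMDiff_fst.comp hc
  have h2 : ContMDiff 𝓘(ℝ, ℝ × ℝ) (𝓡 2) ∞ (fun q => (u (sphP q)).2) := contMDiff_snd.comp hc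
  have e1 : mfderiv 𝓘(ℝ, ℝ × ℝ) (𝓡 2) (fun q => (u (sphP q)).1) q v =
      ((mfderiv 𝓘(ℝ, ℝ × ℝ) I4 (fun q => u (sphP q)) q v : E4).1 : E2) := by
    have := mfderiv_comp (I := 𝓘(ℝ, ℝ × ℝ)) (I' := I4) (I'' := 𝓡 2) q
      (mdifferentiableAt_fst (I := 𝓡 2) (I' := 𝓡 2) (M := P1) (M' := P1) (x := u (sphP q))) hcq
    have h3 : mfderiv 𝓘(ℝ, ℝ × ℝ) (𝓡 2) (fun q => (u (sphP q)).1) q =
      mfderiv 𝓘(ℝ, ℝ × ℝ) (𝓡 2) (Prod.fst ∘ fun q => u (sphP q)) q := rfl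
    rw [h3, this, mfderiv_fst]
    rfl
  have e2 : mfderiv 𝓘(ℝ, ℝ × ℝ) (𝓡 2) (fun q => (u (sphP q)).2) q v =
      ((mfderiv 𝓘(ℝ, ℝ × ℝ) I4 (fun q => u (sphP q)) q v : E4).2 : E2) := by
    have := mfderiv_comp (I := 𝓘(ℝ, ℝ × ℝ)) (I' := I4) (I'' := 𝓡 2) q
      (mdifferentiableAt_snd (I := 𝓡 2) (I' := 𝓡 2) (M := P1) (M' := P1) (x := u (sphP q))) hcq
    have h3 : mfderiv 𝓘(ℝ, ℝ × ℝ) (𝓡 2) (fun q => (u (sphP q)).2) q =
      mfderiv 𝓘(ℝ, ℝ × ℝ) (𝓡 2) (Prod.snd ∘ fun q => u (sphP q)) q := rfl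
    rw [h3, this, mfderiv_snd]
    rfl
  rw [hol_fderiv_coe _ h1, hol_fderiv_coe _ h2, e1, e2, e0]
  rfl

theorem isSol_of_isHolomorphic (u : P1 → X4) (hu : IsHolomorphic (I' := 𝓡 2) jP1 (K4 1) u) :
    IsSol (fun q => ((u (sphP q)).1 : R3)) (fun q => ((u (sphP q)).2 : R3)) := by
  have hc : ContMDiff 𝓘(ℝ, ℝ × ℝ) I4 ∞ (fun q => u (sphP q)) := hu.1.comp contMDiff_sphP
  have hper : ∀ q : ℝ × ℝ, sphP (q.1 + 2 * Real.pi, q.2) = sphP q := by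
    intro q
    apply Subtype.ext
    show sph (q.1 + 2 * Real.pi, q.2) = sph q
    unfold sph
    simp only [Real.cos_add_two_pi, Real.sin_add_two_pi]
  refine ⟨?_, ?_, ?_, ?_, ?_, ?_, ?_, ?_⟩
  · exact ((contMDiff_coe_sphere (m := ∞)).comp (contMDiff_fst.comp hc)).contDiff
  · exact ((contMDiff_coe_sphere (m := ∞)).comp (contMDiff_snd.comp hc)).contDiff
  · intro q; exact inner_self_P1 _
  · intro q; exact inner_self_P1 _
  · intro q; simp only [hper]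
  · intro q; simp only [hper]
  · intro q
    obtain ⟨q', h0, h1, h2⟩ := sphP_surjective (sphP q)
    refine ⟨q', h0, h1, ?_, ?_⟩ <;> simp only [h2]
  · intro q
    rw [hol_pair u hu.1 q (1, 0), hol_pair u hu.1 q (0, 1), hol_sphP_rot]
    have h3 := hu.2 (sphP q) (mfderiv 𝓘(ℝ, ℝ × ℝ) (𝓡 2) sphP q (0, 1))
    have h4 := inc4_J4 1 (u (sphP q))
      (mfderiv (𝓡 2) I4 u (sphP q) (mfderiv 𝓘(ℝ, ℝ × ℝ) (𝓡 2) sphP q (0, 1)))
    rw [← h4]
    rw [(mfderiv (𝓡 2) I4 u (sphP q)).map_smul, h3]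
    exact (inc4 (u (sphP q))).map_smul _ _

/-- the region that is met by no non-constant sphere -/
def U4 : Set X4 := {x | |(x.1 : R3) 2| < 1 / 2 ∧ |(x.2 : R3) 2| < 1 / 2}

theorem isOpen_U4 : IsOpen U4 := by
  have h1 : Continuous (fun x : X4 => |(x.1 : R3) 2|) := by
    have h : Continuous (fun x : X4 => (x.1 : R3) 2) := by
      have h2 : Continuous (fun v : R3 => v 2) := by fun_prop
      exact h2.comp (continuous_subtype_val.comp continuous_fst)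
    exact h.abs
  have h2 : Continuous (fun x : X4 => |(x.2 : R3) 2|) := by
    have h : Continuous (fun x : X4 => (x.2 : R3) 2) := by
      have h2 : Continuous (fun v : R3 => v 2) := by fun_prop
      exact h2.comp (continuous_subtype_val.comp continuous_snd)
    exact h.abs
  exact (isOpen_lt h1 continuous_const).inter (isOpen_lt h2 continuous_const)

theorem nonempty_U4 : U4.Nonempty := by
  refine ⟨(sphP (0, Real.pi / 2), sphP (0, Real.pi / 2)), ?_⟩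
  have h : ((sphP (0, Real.pi / 2) : P1) : R3) 2 = 0 := by
    change sph (0, Real.pi / 2) 2 = 0
    simp [sph]
  constructor
  · change |((sphP (0, Real.pi / 2) : P1) : R3) 2| < 1 / 2
    rw [h]
    norm_num
  · change |((sphP (0, Real.pi / 2) : P1) : R3) 2| < 1 / 2
    rw [h]
    norm_num

theorem const_of_meets (u : P1 → X4) (hu : IsHolomorphic (I' := 𝓡 2) jP1 (K4 1) u) (ζ : P1)
    (hζ : u ζ ∈ U4) (w : P1) : u w = u ζ := by
  obtain ⟨q₀, _, _, h0⟩ := sphP_surjective ζ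
  obtain ⟨q, _, _, h1⟩ := sphP_surjective w
  have hs := isSol_of_isHolomorphic u hu
  have hc := hs.const q₀ (by rw [h0]; exact hζ.1) (by rw [h0]; exact hζ.2) q
  rw [h0, h1] at hc
  exact Prod.ext (Subtype.ext hc.1) (Subtype.ext hc.2)

theorem not_mem_U4 (C : RationalCurve (I' := 𝓡 2) jP1 (K4 1)) (x : X4) (hx : x ∈ C.image) :
    x ∉ U4 := by
  intro hxU
  unfold RationalCurve.image at hx
  rw [mem_iUnion] at hx
  obtain ⟨a, z0, hz0⟩ := hx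
  have ha : ∀ w, C.u a w = x := by
    intro w
    rw [const_of_meets (C.u a) (C.holomorphic a) z0 (by rw [hz0]; exact hxU) w, hz0]
  have hstep : ∀ b c, C.graph.Adj b c → (∀ w, C.u b w = x) → ∀ w, C.u c w = x := by
    intro b c hbc hb w
    have h1 : C.u c (C.node c b) = x := by
      rw [← C.node_eq b c hbc]
      exact hb _
    rw [const_of_meets (C.u c) (C.holomorphic c) (C.node c b) (by rw [h1]; exact hxU) w, h1]
  have hall : ∀ b, ∀ w, C.u b w = x := by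
    intro b
    have hr : C.graph.Reachable a b := C.isTree.connected a b
    obtain ⟨p⟩ := hr
    have hwalk : ∀ (c d : Fin C.n) (p : C.graph.Walk c d), (∀ w, C.u c w = x) → ∀ w, C.u d w = x := by
      intro c d p
      induction p with
      | nil => exact fun h => h
      | cons hadj _ ih => exact fun h => ih (hstep _ _ hadj h)
    exact hwalk a b p ha
  obtain ⟨b, z, w, hne⟩ := C.nonconstant
  exact hne ((hall b z).trans (hall b w).symm)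

end Pool.Agent.Helper206.Rat
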